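import Mathlib

/-!
# Independence of multiplicative functions over the finitely supported functions
-/

set_option autoImplicit false

namespace Pool.Agent.K6.H96.BV

open Finset

section
variable {F δ : ArithmeticFunction ℂ}

/-- the convolution at `q ^ j n`, `q` large -/
lemma conv_qpow (hF : F.IsMultiplicative) {B q j n : ℕ} (hδ : ∀ d, B < d → δ d = 0)
    (hq : q.Prime) (hqB : B < q) (hn : n.Coprime q) :
    (δ * F) (q ^ j * n) = F (q ^ j) * (δ * F) n := by
  rw [ArithmeticFunction.mul_apply, ArithmeticFunction.mul_apply, Finset.mul_sum]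
  symm
  have hn0 : n ≠ 0 := by
    rintro rfl
    rw [Nat.coprime_zero_left] at hn
    exact hq.one_lt.ne' hn
  refine Finset.sum_of_injOn (fun x : ℕ × ℕ => (x.1, q ^ j * x.2)) ?_ ?_ ?_ ?_
  · rintro ⟨a, b⟩ _ ⟨c, d⟩ _ h
    simp only [Prod.mk.injEq] at h
    have h2 : 0 < q ^ j := pow_pos hq.pos j
    exact Prod.ext h.1 (Nat.eq_of_mul_eq_mul_left h2 h.2)
  · rintro ⟨a, b⟩ h
    rw [mem_coe, Nat.mem_divisorsAntidiagonal] at h ⊢
    refine ⟨?_, mul_ne_zero (pow_pos hq.pos j).ne' hn0⟩
    simp only at h ⊢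
    rw [← h.1]
    ring
  · rintro ⟨a, b⟩ h h'
    rw [Nat.mem_divisorsAntidiagonal] at h
    simp only at h ⊢
    by_cases hqa : q ∣ a
    · have ha0 : a ≠ 0 := by
        rintro rfl
        rw [zero_mul] at h
        exact h.2 h.1.symm
      rw [hδ a (hqB.trans_le (Nat.le_of_dvd (Nat.pos_of_ne_zero ha0) hqa)), zero_mul]
    · exfalso
      apply h'
      have hc : a.Coprime (q ^ j) := Nat.Coprime.pow_right j ((hq.coprime_iff_not_dvd.2 hqa).symm)
      have hd : a ∣ n := hc.dvd_of_dvd_mul_left (Dvd.intro _ h.1)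
      obtain ⟨c, rfl⟩ := hd
      refine ⟨(a, c), ?_, ?_⟩
      · rw [mem_coe, Nat.mem_divisorsAntidiagonal]
        exact ⟨rfl, hn0⟩
      · have ha0 : 0 < a := Nat.pos_of_ne_zero (left_ne_zero_of_mul hn0)
        refine Prod.ext rfl ?_
        simp only
        refine Nat.eq_of_mul_eq_mul_left ha0 ?_
        rw [h.1]
        ring
  · rintro ⟨a, b⟩ h
    rw [Nat.mem_divisorsAntidiagonal] at h
    simp only at h ⊢
    have hb : (q ^ j).Coprime b := by
      refine Nat.Coprime.pow_left j ?_
      exact (Nat.Coprime.coprime_dvd_left (Dvd.intro_left _ h.1) hn).symm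
    rw [hF.map_mul_of_coprime hb]
    ring

end

/-- multiplication by a constant -/
def cmul (c : ℂ) (δ : ArithmeticFunction ℂ) : ArithmeticFunction ℂ := ⟨fun n => c * δ n, by simp⟩

lemma cmul_apply (c : ℂ) (δ : ArithmeticFunction ℂ) (n : ℕ) : cmul c δ n = c * δ n := rfl

lemma cmul_mul (c : ℂ) (δ F : ArithmeticFunction ℂ) (n : ℕ) : (cmul c δ * F) n = c * (δ * F) n := by
  rw [ArithmeticFunction.mul_apply, ArithmeticFunction.mul_apply, Finset.mul_sum]
  refine Finset.sum_congr rfl fun x _ => ?_
  rw [cmul_apply, mul_assoc]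

/-- the single case -/
lemma one_term {F δ : ArithmeticFunction ℂ} (hF : F.IsMultiplicative) {N : ℕ}
    (h : ∀ n : ℕ, n.Coprime N → (δ * F) n = 0) : ∀ n : ℕ, n.Coprime N → δ n = 0 := by
  intro n
  induction n using Nat.strong_induction_on with
  | _ n ih =>
    intro hn
    rcases Nat.eq_zero_or_pos n with rfl | hn0
    · exact ArithmeticFunction.map_zero
    have h1 := h n hn
    rw [ArithmeticFunction.mul_apply, Finset.sum_eq_single (n, 1)] at h1
    · simp only at h1
      rw [hF.map_one, mul_one] at h1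
      exact h1
    · rintro ⟨a, b⟩ hab hne
      rw [Nat.mem_divisorsAntidiagonal] at hab
      simp only at hab ⊢
      have ha : a < n := by
        refine lt_of_le_of_ne (Nat.le_of_dvd hn0 (Dvd.intro _ hab.1)) ?_
        rintro rfl
        apply hne
        have : b = 1 := by
          refine Nat.eq_of_mul_eq_mul_left hn0 ?_
          rw [hab.1, mul_one]
        rw [this]
      rw [ih a ha (Nat.Coprime.coprime_dvd_left (Dvd.intro _ hab.1) hn), zero_mul]
    · intro hne
      exfalso
      apply hne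
      rw [Nat.mem_divisorsAntidiagonal]
      exact ⟨mul_one n, hn0.ne'⟩

/-- **Independence.** -/
theorem ded {κ : Type} [DecidableEq κ] {F : κ → ArithmeticFunction ℂ}
    (hF : ∀ i, (F i).IsMultiplicative) (T : Finset κ) :
    (∀ a ∈ T, ∀ b ∈ T, a ≠ b → ∀ B : ℕ, ∃ q : ℕ, q.Prime ∧ B < q ∧ ∃ j, F a (q ^ j) ≠ F b (q ^ j)) →
    ∀ (N : ℕ), N ≠ 0 → ∀ (δ : κ → ArithmeticFunction ℂ) (B : ℕ),
      (∀ i ∈ T, ∀ n, B < n → δ i n = 0) →
      (∀ n : ℕ, n.Coprime N → ∑ i ∈ T, (δ i * F i) n = 0) →
      ∀ i ∈ T, ∀ n : ℕ, n.Coprime N → δ i n = 0 := by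
  induction T using Finset.induction_on with
  | empty =>
    intro _ _ _ _ _ _ _ i hi
    simp at hi
  | insert b T hbT ih =>
    intro hT N hN δ B hδ hrel
    have ih' := ih fun a ha c hc => hT a (mem_insert_of_mem ha) c (mem_insert_of_mem hc)
    have hfirst : ∀ a ∈ T, ∀ n : ℕ, n.Coprime N → δ a n = 0 := by
      intro a ha
      have hab : a ≠ b := fun h => hbT (h ▸ ha)
      obtain ⟨q, hq, hqB, j, hj⟩ := hT a (mem_insert_of_mem ha) b (mem_insert_self _ _) hab (max B N)
      have hqN : q.Coprime N := by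
        rw [hq.coprime_iff_not_dvd]
        intro hd
        have := Nat.le_of_dvd (Nat.pos_of_ne_zero hN) hd
        exact absurd (lt_of_le_of_lt (le_max_right B N) hqB) (not_lt.2 this)
      have hqB' : B < q := lt_of_le_of_lt (le_max_left B N) hqB
      have h1 := ih' (N * q) (mul_ne_zero hN hq.ne_zero)
        (fun i => cmul (F i (q ^ j) - F b (q ^ j)) (δ i)) B
        (fun i hi n hn => by rw [cmul_apply, hδ i (mem_insert_of_mem hi) n hn, mul_zero])
        (fun n hn => by
          have hnN : n.Coprime N := Nat.Coprime.coprime_mul_right_right hn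
          have hnq : n.Coprime q := Nat.Coprime.coprime_mul_left_right hn
          have e1 := hrel n hnN
          have e2 := hrel (q ^ j * n) (Nat.Coprime.mul_left (Nat.Coprime.pow_left j hqN) hnN)
          have e3 : ∑ i ∈ insert b T, (F i (q ^ j) - F b (q ^ j)) * (δ i * F i) n = 0 := by
            have e4 : ∑ i ∈ insert b T, (δ i * F i) (q ^ j * n) =
                ∑ i ∈ insert b T, F i (q ^ j) * (δ i * F i) n :=
              Finset.sum_congr rfl fun i hi => conv_qpow (hF i) (hδ i hi) hq hqB' hnq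
            rw [e4] at e2
            simp_rw [sub_mul]
            rw [Finset.sum_sub_distrib, e2, ← Finset.mul_sum, e1, mul_zero, sub_zero]
          rw [Finset.sum_insert hbT, sub_self, zero_mul, zero_add] at e3
          rw [← e3]
          exact Finset.sum_congr rfl fun i _ => cmul_mul _ _ _ _) a ha
      intro n hn
      by_cases hqn : q ∣ n
      · rcases Nat.eq_zero_or_pos n with rfl | hn0
        · exact ArithmeticFunction.map_zero
        · exact hδ a (mem_insert_of_mem ha) n (hqB'.trans_le (Nat.le_of_dvd hn0 hqn))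
      · have h2 := h1 n (Nat.Coprime.mul_right hn ((hq.coprime_iff_not_dvd.2 hqn).symm))
        rw [cmul_apply] at h2
        rcases mul_eq_zero.1 h2 with h3 | h3
        · exact absurd (sub_eq_zero.1 h3) hj
        · exact h3
    have hb : ∀ n : ℕ, n.Coprime N → δ b n = 0 := by
      refine one_term (hF b) fun n hn => ?_
      have h1 := hrel n hn
      rw [Finset.sum_insert hbT, Finset.sum_eq_zero, add_zero] at h1
      · exact h1
      · intro i hi
        rw [ArithmeticFunction.mul_apply]
        refine Finset.sum_eq_zero fun x hx => ?_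
        rw [Nat.mem_divisorsAntidiagonal] at hx
        rw [hfirst i hi x.1 (Nat.Coprime.coprime_dvd_left (Dvd.intro _ hx.1) hn), zero_mul]
    intro i hi
    rcases mem_insert.1 hi with rfl | hi
    · exact hb
    · exact hfirst i hi

end Pool.Agent.K6.H96.BV
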