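import Mathlib

/-!
# Dirichlet series are linearly independent over the powers of `s`
-/

set_option autoImplicit false

namespace Pool.Agent.K6.H96.BV

open Finset Filter Topology

/-- Dirichlet series and powers of `s` -/
theorem sep (J : ℕ) (c : ℕ → ArithmeticFunction ℂ)
    (hc : ∀ j, LSeries.abscissaOfAbsConv (c j) < ⊤)
    (h : ∀ᶠ x : ℝ in atTop, ∑ j ∈ range J, (x : ℂ) ^ j * LSeries (c j) x = 0) :
    ∀ j < J, c j = 0 := by
  classical
  by_contra hcon
  push Not at hcon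
  obtain ⟨j1, hj1, hne1⟩ := hcon
  have hex : ∃ n, ∃ j < J, c j n ≠ 0 := by
    by_contra hall
    push Not at hall
    exact hne1 (ArithmeticFunction.ext fun n => hall n j1 hj1)
  obtain ⟨n0, ⟨j2, hj2, hn2⟩, hmin⟩ : ∃ n, (∃ j < J, c j n ≠ 0) ∧ ∀ m < n, ¬ ∃ j < J, c j m ≠ 0 :=
    ⟨Nat.find hex, Nat.find_spec hex, fun m hm => Nat.find_min hex hm⟩
  have hn0 : n0 ≠ 0 := by
    rintro rfl
    exact hn2 (ArithmeticFunction.map_zero)
  obtain ⟨m, rfl⟩ := Nat.exists_eq_succ_of_ne_zero hn0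
  have hlow : ∀ j < J, ∀ k ≤ m, c j k = 0 := by
    intro j hj k hk
    by_contra hne
    exact hmin k (by omega) ⟨j, hj, hne⟩
  set S := (range J).filter fun j => c j (m + 1) ≠ 0 with hS
  have hSne : S.Nonempty := ⟨j2, by rw [hS, mem_filter, mem_range]; exact ⟨hj2, hn2⟩⟩
  set J' := S.max' hSne with hJ'
  have hJ'S : J' ∈ S := S.max'_mem hSne
  have hJ'2 : J' < J ∧ c J' (m + 1) ≠ 0 := by
    have := hJ'S
    rw [hS, mem_filter, mem_range] at this
    exact this
  have hhigh : ∀ j < J, J' < j → c j (m + 1) = 0 := by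
    intro j hj hlt
    by_contra hne
    have : j ∈ S := by
      rw [hS, mem_filter, mem_range]
      exact ⟨hj, hne⟩
    exact absurd (S.le_max' j this) (not_le.2 hlt)
  have hlim : ∀ j ∈ range J, Tendsto (fun N : ℕ => ((N : ℂ) ^ j / (N : ℂ) ^ J') *
      (((m : ℂ) + 1) ^ (((N : ℝ) : ℂ)) * LSeries (c j) ((N : ℝ) : ℂ))) atTop
      (𝓝 (if j = J' then c J' (m + 1) else 0)) := by
    intro j hj
    rw [mem_range] at hj
    have hbase : Tendsto (fun N : ℕ => ((m : ℂ) + 1) ^ (((N : ℝ) : ℂ)) *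
        LSeries (c j) ((N : ℝ) : ℂ)) atTop (𝓝 (c j (m + 1))) :=
      (LSeries.tendsto_cpow_mul_atTop (fun k hk => hlow j hj k hk) (hc j)).comp
        tendsto_natCast_atTop_atTop
    rcases lt_trichotomy j J' with hlt | heq | hgt
    · rw [if_neg hlt.ne]
      have h1 : Tendsto (fun N : ℕ => (((N : ℝ) ^ j / (N : ℝ) ^ J' : ℝ) : ℂ)) atTop (𝓝 ((0 : ℝ) : ℂ)) :=
        (Complex.continuous_ofReal.tendsto _).comp
          ((tendsto_pow_div_pow_atTop_zero hlt).comp tendsto_natCast_atTop_atTop)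
      have h2 := h1.mul hbase
      rw [Complex.ofReal_zero, zero_mul] at h2
      refine h2.congr fun N => ?_
      push_cast
      rfl
    · rw [if_pos heq]
      have h2 : Tendsto (fun N : ℕ => (1 : ℂ) * (((m : ℂ) + 1) ^ (((N : ℝ) : ℂ)) *
        LSeries (c j) ((N : ℝ) : ℂ))) atTop (𝓝 (1 * c j (m + 1))) := hbase.const_mul 1
      rw [one_mul, heq] at h2
      rw [heq]
      refine h2.congr' ?_
      filter_upwards [eventually_gt_atTop 0] with N hN
      have hN0 : (N : ℂ) ≠ 0 := Nat.cast_ne_zero.2 hN.ne'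
      rw [div_self (pow_ne_zero _ hN0)]
    · rw [if_neg hgt.ne']
      have hup : Tendsto (fun N : ℕ => (((m + 1 : ℕ) : ℂ) + 1) ^ (((N : ℝ) : ℂ)) *
          LSeries (c j) ((N : ℝ) : ℂ)) atTop (𝓝 (c j (m + 1 + 1))) :=
        (LSeries.tendsto_cpow_mul_atTop (n := m + 1) (fun k hk => by
          rcases Nat.lt_or_ge k (m + 1) with hk' | hk'
          · exact hlow j hj k (by omega)
          · have : k = m + 1 := by omega
            rw [this]
            exact hhigh j hj hgt) (hc j)).comp tendsto_natCast_atTop_atTop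
      set ρ : ℝ := ((m : ℝ) + 1) / ((m : ℝ) + 2) with hρ
      have hρ1 : |ρ| < 1 := by
        rw [abs_of_nonneg (by positivity), hρ, div_lt_one (by positivity)]
        linarith
      have h1 : Tendsto (fun N : ℕ => (((N : ℝ) ^ (j - J') * ρ ^ N : ℝ) : ℂ)) atTop
          (𝓝 ((0 : ℝ) : ℂ)) :=
        (Complex.continuous_ofReal.tendsto _).comp
          (tendsto_pow_const_mul_const_pow_of_abs_lt_one (j - J') hρ1)
      have h2 := h1.mul hup
      rw [Complex.ofReal_zero, zero_mul] at h2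
      refine h2.congr' ?_
      filter_upwards [eventually_gt_atTop 0] with N hN
      have hN0 : (N : ℂ) ≠ 0 := Nat.cast_ne_zero.2 hN.ne'
      have e1 : (N : ℂ) ^ j / (N : ℂ) ^ J' = (N : ℂ) ^ (j - J') := by
        rw [div_eq_iff (pow_ne_zero _ hN0), ← pow_add, Nat.sub_add_cancel hgt.le]
      have e2 : ((m : ℂ) + 1) ^ (((N : ℝ) : ℂ)) = ((m : ℂ) + 1) ^ N := by
        rw [Complex.ofReal_natCast, Complex.cpow_natCast]
      have e3 : (((m + 1 : ℕ) : ℂ) + 1) ^ (((N : ℝ) : ℂ)) = ((m : ℂ) + 2) ^ N := by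
        rw [Complex.ofReal_natCast, Complex.cpow_natCast]
        push_cast
        ring
      have e4 : ((ρ ^ N : ℝ) : ℂ) * ((m : ℂ) + 2) ^ N = ((m : ℂ) + 1) ^ N := by
        rw [Complex.ofReal_pow, ← mul_pow]
        congr 1
        rw [hρ]
        push_cast
        have : (m : ℂ) + 2 ≠ 0 := by
          have : ((m + 2 : ℕ) : ℂ) ≠ 0 := Nat.cast_ne_zero.2 (by omega)
          push_cast at this
          exact this
        field_simp
      rw [e1, e2, e3, ← e4]
      push_cast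
      ring
  have hsum := tendsto_finsetSum (range J) hlim
  rw [Finset.sum_ite_eq' (range J) J', if_pos (mem_range.2 hJ'2.1)] at hsum
  have hzero : Tendsto (fun N : ℕ => ∑ j ∈ range J, ((N : ℂ) ^ j / (N : ℂ) ^ J') *
      (((m : ℂ) + 1) ^ (((N : ℝ) : ℂ)) * LSeries (c j) ((N : ℝ) : ℂ))) atTop (𝓝 0) := by
    refine tendsto_const_nhds.congr' ?_
    have h' := tendsto_natCast_atTop_atTop (R := ℝ) |>.eventually h
    filter_upwards [h'] with N hN
    have e : ∑ j ∈ range J, ((N : ℂ) ^ j / (N : ℂ) ^ J') *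
      (((m : ℂ) + 1) ^ (((N : ℝ) : ℂ)) * LSeries (c j) ((N : ℝ) : ℂ)) =
        ((m : ℂ) + 1) ^ (((N : ℝ) : ℂ)) / (N : ℂ) ^ J' *
          ∑ j ∈ range J, (((N : ℝ) : ℂ)) ^ j * LSeries (c j) ((N : ℝ) : ℂ) := by
      rw [Finset.mul_sum]
      refine Finset.sum_congr rfl fun j _ => ?_
      rw [Complex.ofReal_natCast]
      ring
    rw [e, hN, mul_zero]
  exact hJ'2.2 (tendsto_nhds_unique hsum hzero)

end Pool.Agent.K6.H96.BV
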