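import Mathlib

/-!
# Completely multiplicative functions, local power series
-/

set_option autoImplicit false

namespace Pool.Agent.K6.H96.BV

open Finset Filter Topology

/-- the completely multiplicative function with the given values at the primes -/
noncomputable def cm (α : ℕ → ℂ) : ArithmeticFunction ℂ :=
  ⟨fun n => if n = 0 then 0 else n.factorization.prod fun p e => α p ^ e, by simp⟩

section
variable {α : ℕ → ℂ}

lemma cm_apply {n : ℕ} (hn : n ≠ 0) : cm α n = n.factorization.prod fun p e => α p ^ e := by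
  change (if n = 0 then 0 else n.factorization.prod fun p e => α p ^ e) = _
  rw [if_neg hn]

lemma cm_one : cm α 1 = 1 := by
  rw [cm_apply one_ne_zero, Nat.factorization_one, Finsupp.prod_zero_index]

lemma cm_mul (m n : ℕ) : cm α (m * n) = cm α m * cm α n := by
  by_cases hm : m = 0
  · rw [hm, zero_mul, ArithmeticFunction.map_zero, zero_mul]
  by_cases hn : n = 0
  · rw [hn, mul_zero, ArithmeticFunction.map_zero, mul_zero]
  rw [cm_apply hm, cm_apply hn, cm_apply (mul_ne_zero hm hn), Nat.factorization_mul hm hn,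
    Finsupp.prod_add_index']
  · intro p
    exact pow_zero _
  · intro p a b
    exact pow_add _ _ _

lemma cm_prime_pow {p : ℕ} (hp : p.Prime) (j : ℕ) : cm α (p ^ j) = α p ^ j := by
  rw [cm_apply (pow_ne_zero _ hp.ne_zero), hp.factorization_pow]
  exact Finsupp.prod_single_index (h := fun p e => α p ^ e) (pow_zero _)

lemma cm_prime {p : ℕ} (hp : p.Prime) : cm α p = α p := by
  have := cm_prime_pow (α := α) hp 1
  rwa [pow_one, pow_one] at this

lemma cm_mult : (cm α).IsMultiplicative := ⟨cm_one, fun {m n} _ => cm_mul m n⟩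

lemma norm_cm (hα : ∀ p : ℕ, p.Prime → ‖α p‖ ≤ 1) (n : ℕ) : ‖cm α n‖ ≤ 1 := by
  by_cases hn : n = 0
  · rw [hn, ArithmeticFunction.map_zero, norm_zero]
    exact zero_le_one
  rw [cm_apply hn, Finsupp.prod, norm_prod]
  refine Finset.prod_le_one (fun _ _ => norm_nonneg _) fun p hp => ?_
  rw [norm_pow]
  refine pow_le_one₀ (norm_nonneg _) (hα p ?_)
  rw [Nat.support_factorization] at hp
  exact Nat.prime_of_mem_primeFactors hp

lemma summable_cm (hα : ∀ p : ℕ, p.Prime → ‖α p‖ ≤ 1) {s : ℂ} (hs : 1 < s.re) :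
    LSeriesSummable (cm α) s :=
  LSeriesSummable_of_bounded_of_one_lt_re (m := 1) (fun n _ => norm_cm hα n) hs

/-- the Euler product -/
lemma hasProd_cm (hα : ∀ p : ℕ, p.Prime → ‖α p‖ ≤ 1) {s : ℂ} (hs : 1 < s.re) :
    HasProd (fun p : Nat.Primes => (1 - α p * ((p : ℕ) : ℂ) ^ (-s))⁻¹) (LSeries (cm α) s) := by
  have hs0 : -s ≠ 0 := by
    rw [neg_ne_zero]
    rintro rfl
    norm_num at hs
  let f : ℕ →*₀ ℂ :=
    { toFun := fun n => cm α n * (n : ℂ) ^ (-s)
      map_zero' := by rw [ArithmeticFunction.map_zero, zero_mul]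
      map_one' := by rw [cm_one, Nat.cast_one, Complex.one_cpow, mul_one]
      map_mul' := fun m n => by
        rw [cm_mul, Nat.cast_mul, Complex.natCast_mul_natCast_cpow]
        ring }
  have hf : ∀ n, f n = LSeries.term (cm α) s n := by
    intro n
    change cm α n * (n : ℂ) ^ (-s) = _
    by_cases hn : n = 0
    · rw [hn, LSeries.term_zero, ArithmeticFunction.map_zero, zero_mul]
    · rw [LSeries.term_of_ne_zero hn, Complex.cpow_neg, div_eq_mul_inv]
  have hsum : Summable fun n => ‖f n‖ := by
    have h1 := (summable_cm hα hs).norm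
    refine h1.congr fun n => ?_
    rw [hf]
  have h2 := EulerProduct.eulerProduct_completely_multiplicative_hasProd hsum
  have h3 : ∑' n, f n = LSeries (cm α) s := tsum_congr hf
  rw [h3] at h2
  have h4 : (fun p : Nat.Primes => (1 - α p * ((p : ℕ) : ℂ) ^ (-s))⁻¹) =
      fun p : Nat.Primes => (1 - f p)⁻¹ := by
    funext p
    change _ = (1 - cm α p * ((p : ℕ) : ℂ) ^ (-s))⁻¹
    rw [cm_prime p.2]
  rw [h4]
  exact h2

end

/-- the local power series at `p` -/
noncomputable def loc (p : ℕ) (F : ArithmeticFunction ℂ) : PowerSeries ℂ :=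
  PowerSeries.mk fun j => F (p ^ j)

lemma loc_one {p : ℕ} (hp : p.Prime) : loc p 1 = 1 := by
  ext j
  unfold loc
  rw [PowerSeries.coeff_mk, PowerSeries.coeff_one, ArithmeticFunction.one_apply]
  by_cases hj : j = 0
  · rw [if_pos hj, hj, pow_zero, if_pos rfl]
  · rw [if_neg hj, if_neg]
    intro h
    have h2 := Nat.one_lt_pow hj hp.one_lt
    omega

lemma loc_mul {p : ℕ} (hp : p.Prime) (F G : ArithmeticFunction ℂ) :
    loc p (F * G) = loc p F * loc p G := by
  ext n
  unfold loc
  rw [PowerSeries.coeff_mk, PowerSeries.coeff_mul, ArithmeticFunction.mul_apply,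
    Nat.sum_divisorsAntidiagonal (fun a b => F a * G b), Nat.divisors_prime_pow hp, Finset.sum_map,
    Finset.Nat.sum_antidiagonal_eq_sum_range_succ
      (fun i j => (PowerSeries.coeff i) (PowerSeries.mk fun j => F (p ^ j)) *
        (PowerSeries.coeff j) (PowerSeries.mk fun j => G (p ^ j)))]
  refine Finset.sum_congr rfl fun i hi => ?_
  rw [mem_range] at hi
  rw [PowerSeries.coeff_mk, PowerSeries.coeff_mk]
  simp only [Function.Embedding.coeFn_mk]
  rw [Nat.pow_div (by omega) hp.pos]

/-- the local power series as a homomorphism of monoids -/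
noncomputable def locHom (p : Nat.Primes) : ArithmeticFunction ℂ →* PowerSeries ℂ where
  toFun := loc p
  map_one' := loc_one p.2
  map_mul' := loc_mul p.2

lemma locHom_cm (p : Nat.Primes) (α : ℕ → ℂ) :
    locHom p (cm α) * (1 - PowerSeries.C (α p) * PowerSeries.X) = 1 := by
  change loc p (cm α) * _ = 1
  ext n
  rw [mul_sub, mul_one, mul_comm (PowerSeries.C (α p)) PowerSeries.X, ← mul_assoc, map_sub]
  rcases n with _ | n
  · rw [PowerSeries.coeff_one, if_pos rfl, PowerSeries.coeff_zero_eq_constantCoeff_apply,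
      PowerSeries.coeff_zero_eq_constantCoeff_apply, map_mul, map_mul, PowerSeries.constantCoeff_X,
      mul_zero, zero_mul, sub_zero, ← PowerSeries.coeff_zero_eq_constantCoeff_apply]
    unfold loc
    rw [PowerSeries.coeff_mk, cm_prime_pow p.2, pow_zero]
  · rw [PowerSeries.coeff_one, if_neg (Nat.succ_ne_zero n), PowerSeries.coeff_mul_C,
      PowerSeries.coeff_succ_mul_X]
    unfold loc
    rw [PowerSeries.coeff_mk, PowerSeries.coeff_mk, cm_prime_pow p.2, cm_prime_pow p.2, pow_succ,
      sub_self]

/-- summability and values of products -/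
lemma LS_prod {κ : Type} (t : Finset κ) (f : κ → ArithmeticFunction ℂ) {s : ℂ}
    (h : ∀ i ∈ t, LSeriesSummable (f i) s) :
    LSeriesSummable (∏ i ∈ t, f i : ArithmeticFunction ℂ) s ∧
      LSeries (∏ i ∈ t, f i : ArithmeticFunction ℂ) s = ∏ i ∈ t, LSeries (f i) s := by
  classical
  induction t using Finset.induction_on with
  | empty =>
    rw [Finset.prod_empty, Finset.prod_empty]
    have h1 : (⇑(1 : ArithmeticFunction ℂ)) = LSeries.delta := ArithmeticFunction.one_eq_delta
    refine ⟨?_, ?_⟩
    · rw [h1]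
      have h2 : LSeries.term LSeries.delta s = fun n => if n = 1 then 1 else 0 :=
        funext (LSeries.term_delta s)
      unfold LSeriesSummable
      rw [h2]
      exact (hasSum_ite_eq 1 (1 : ℂ)).summable
    · rw [h1, LSeries_delta]
      rfl
  | insert a t ha ih =>
    obtain ⟨h1, h2⟩ := ih fun i hi => h i (mem_insert_of_mem hi)
    have h3 := h a (mem_insert_self _ _)
    rw [Finset.prod_insert ha, Finset.prod_insert ha]
    refine ⟨ArithmeticFunction.LSeriesSummable_mul h3 h1, ?_⟩
    rw [ArithmeticFunction.LSeries_mul' h3 h1, h2]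

end Pool.Agent.K6.H96.BV
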