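import Pool.Agent.K6.H96.BV.Defs

/-!
# Algebraic relations between boundary values, relations between Euler products, continuation to `ℂ`

The definitions for the statement.
-/

set_option autoImplicit false

namespace Pool.Agent.K6.H96.BV

open Filter Topology

/-- The inverse of the Euler factor at `p` of the normalised `L`-function `M.nL`, as a polynomial in
`p ^ (-s)`. -/
noncomputable def Motive.poly (M : Motive) (p : Nat.Primes) : Polynomial ℂ :=
  (M.euler p).comp (Polynomial.C (((p : ℕ) : ℂ) ^ (-((M.weight : ℂ) / 2))) * Polynomial.X)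

/-- The product of the inverse Euler factors at `p` of the motives `M k`, with the multiplicities
`m k`: the inverse Euler factor of the sum of these motives. -/
noncomputable def mpoly {ι : Type} (M : ι → Motive) (m : ι →₀ ℕ) (p : Nat.Primes) : Polynomial ℂ :=
  m.prod fun k n => (M k).poly p ^ n

/-- The field generated over `ℚ` by the set `E`, by `τ`, by `p ^ (iτ)` for all primes `p`, and by the
boundary values at `1 + iτ` of the normalised `L`-functions of the motives `M k`, `k ∈ S`. -/
noncomputable def valueField {ι : Type} (M : ι → Motive) (E : Set ℂ) (S : Set ι) (τ : ℝ) :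
    IntermediateField ℚ ℂ :=
  IntermediateField.adjoin ℚ (E ∪ {(τ : ℂ)} ∪
    {z | ∃ p : Nat.Primes, z = ((p : ℕ) : ℂ) ^ ((τ : ℂ) * Complex.I)} ∪
    {v | ∃ k ∈ S, HasBoundaryValue (M k).nL τ v})

/-- `f` extends to a meromorphic function on `ℂ`: it agrees with one on some right half-plane. -/
def ExtendsToPlane (f : ℂ → ℂ) : Prop :=
  ∃ g : ℂ → ℂ, (∀ z : ℂ, MeromorphicAt g z) ∧ ∃ σ : ℝ, ∀ s : ℂ, σ < s.re → g s = f s

end Pool.Agent.K6.H96.BV
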