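import Pool.Agent.K6.H96.BV.N4
import Pool.Agent.K6.H96.BV.Defs2
import Pool.Agent.K6.H96.BV.B1
import Pool.Agent.K6.H96.BV.B3

/-!
# The Dirichlet coefficients of the `L`-functions
-/

set_option autoImplicit false

namespace Pool.Agent.K6.H96.BV

open Complex Filter Topology
open Pool.Agent.TH339.MP (PP FF fα hasProd_α bα)

namespace Motive

variable (M : Motive)

lemma poly_eval (p : Nat.Primes) (s : ℂ) : (M.poly p).eval (((p : ℕ) : ℂ) ^ (-s)) = M.lf p s := by
  unfold poly lf
  rw [Polynomial.eval_comp, Polynomial.eval_mul, Polynomial.eval_C, Polynomial.eval_X,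
    M.cpow_split]
  ring_nf

lemma poly_good {p : Nat.Primes} (hp : p ∉ M.badP) :
    M.poly p = ∏ j, (1 - Polynomial.C (M.al p j) * Polynomial.X) := by
  unfold poly
  rw [(M.good_of hp).2, Polynomial.prod_comp]
  refine Finset.prod_congr rfl fun j _ => ?_
  rw [Polynomial.sub_comp, Polynomial.one_comp, Polynomial.mul_comp, Polynomial.C_comp,
    Polynomial.X_comp, M.al_prime, Polynomial.C_mul, mul_assoc]

lemma cpow_ne (p : Nat.Primes) (z : ℂ) : ((p : ℕ) : ℂ) ^ z ≠ 0 := by
  intro h
  rw [Complex.cpow_eq_zero_iff] at h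
  exact Nat.cast_ne_zero.2 p.2.ne_zero h.1

lemma poly_ne (p : Nat.Primes) : M.poly p ≠ 0 := by
  intro h
  apply M.euler_ne p
  ext n
  have h1 := congrArg (fun q => Polynomial.coeff q n) h
  simp only [poly, Polynomial.comp_C_mul_X_coeff, Polynomial.coeff_zero] at h1
  rw [Polynomial.coeff_zero]
  rcases mul_eq_zero.1 h1 with h2 | h2
  · exact h2
  · exact absurd h2 (pow_ne_zero _ (cpow_ne p _))

open Classical in
/-- the normalised eigenvalues, `0` at the bad primes -/
noncomputable def al' (j : Fin M.rank) (p : ℕ) : ℂ := if p ∈ M.bad then 0 else M.al p j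

lemma norm_al' (j : Fin M.rank) (p : ℕ) (hp : p.Prime) : ‖M.al' j p‖ ≤ 1 := by
  unfold al'
  split_ifs with h
  · rw [norm_zero]
    exact zero_le_one
  · exact M.norm_al p hp h j

/-- the Dirichlet coefficients of the Euler product over the good primes -/
noncomputable def af : ArithmeticFunction ℂ := ∏ j, cm (M.al' j)

lemma af_mult : M.af.IsMultiplicative := by
  unfold af
  exact Finset.prod_induction _ _ (fun _ _ ha hb => ha.mul hb) ArithmeticFunction.isMultiplicative_one
    fun j _ => cm_mult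

lemma af_LS {s : ℂ} (hs : 1 < s.re) :
    LSeriesSummable M.af s ∧ LSeries M.af s = Complex.exp (FF M.co s) := by
  obtain ⟨h1, h2⟩ := LS_prod Finset.univ (fun j => cm (M.al' j)) (s := s)
    fun j _ => summable_cm (M.norm_al' j) hs
  refine ⟨h1, ?_⟩
  unfold af
  rw [h2]
  have h3 := hasProd_prod (s := Finset.univ) fun j (_ : j ∈ Finset.univ) =>
    hasProd_cm (M.norm_al' j) hs
  have h4 := hasProd_α (α := M.al) (S := M.bad) (fun p hp hb j => M.norm_al p hp hb j) hs
  refine h3.unique ?_
  change HasProd _ (Complex.exp (FF (bα M.al M.bad) s))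
  convert h4 using 1
  funext p
  unfold fα al'
  split_ifs with h
  · simp
  · rfl

lemma locHom_af {p : Nat.Primes} (hp : p ∉ M.badP) :
    locHom p M.af * (M.poly p : PowerSeries ℂ) = 1 := by
  have hb : (p : ℕ) ∉ M.bad := fun h => hp (M.mem_bad.1 h)
  have h1 : (M.poly p : PowerSeries ℂ) = ∏ j, (1 - PowerSeries.C (M.al p j) * PowerSeries.X) := by
    rw [M.poly_good hp, ← Polynomial.coeToPowerSeries.ringHom_apply, map_prod]
    refine Finset.prod_congr rfl fun j _ => ?_
    simp
  rw [h1]
  unfold af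
  rw [map_prod, ← Finset.prod_mul_distrib]
  refine Finset.prod_eq_one fun j _ => ?_
  have h2 := locHom_cm p (M.al' j)
  have h3 : M.al' j p = M.al p j := by
    unfold al'
    rw [if_neg hb]
  rw [h3] at h2
  exact h2

end Motive

section
variable {ι : Type} (M : ι → Motive)

/-- the Dirichlet coefficients of a monomial -/
noncomputable def mon (m : ι →₀ ℕ) : ArithmeticFunction ℂ := m.prod fun k n => (M k).af ^ n

lemma mult_pow {F : ArithmeticFunction ℂ} (hF : F.IsMultiplicative) (n : ℕ) :
    (F ^ n).IsMultiplicative := by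
  induction n with
  | zero =>
    rw [pow_zero]
    exact ArithmeticFunction.isMultiplicative_one
  | succ n ih =>
    rw [pow_succ]
    exact ih.mul hF

lemma mon_mult (m : ι →₀ ℕ) : (mon M m).IsMultiplicative := by
  unfold mon Finsupp.prod
  exact Finset.prod_induction _ _ (fun _ _ ha hb => ha.mul hb) ArithmeticFunction.isMultiplicative_one
    fun k _ => mult_pow (M k).af_mult _

lemma LS_pow {F : ArithmeticFunction ℂ} {s : ℂ} (h : LSeriesSummable F s) (n : ℕ) :
    LSeriesSummable (F ^ n : ArithmeticFunction ℂ) s ∧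
      LSeries (F ^ n : ArithmeticFunction ℂ) s = LSeries F s ^ n := by
  have h1 := LS_prod (Finset.range n) (fun _ => F) (s := s) fun _ _ => h
  rw [Finset.prod_const, Finset.prod_const, Finset.card_range] at h1
  exact h1

/-- the value of the monomial in the exponentials -/
noncomputable def gmon (m : ι →₀ ℕ) (s : ℂ) : ℂ :=
  m.prod fun k n => Complex.exp (FF (M k).co s) ^ n

lemma mon_LS (m : ι →₀ ℕ) {s : ℂ} (hs : 1 < s.re) :
    LSeriesSummable (mon M m) s ∧ LSeries (mon M m) s = gmon M m s := by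
  obtain ⟨h1, h2⟩ := LS_prod m.support (fun k => (M k).af ^ (m k)) (s := s)
    fun k _ => (LS_pow ((M k).af_LS hs).1 _).1
  refine ⟨h1, ?_⟩
  have h3 : LSeries (mon M m) s = ∏ k ∈ m.support, LSeries ((M k).af ^ (m k) : ArithmeticFunction ℂ) s :=
    h2
  rw [h3]
  unfold gmon Finsupp.prod
  refine Finset.prod_congr rfl fun k _ => ?_
  rw [(LS_pow ((M k).af_LS hs).1 _).2, ((M k).af_LS hs).2]

lemma locHom_mon (m : ι →₀ ℕ) {p : Nat.Primes} (hp : ∀ k ∈ m.support, p ∉ (M k).badP) :
    locHom p (mon M m) * (mpoly M m p : PowerSeries ℂ) = 1 := by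
  have h1 : (mpoly M m p : PowerSeries ℂ) = ∏ k ∈ m.support, ((M k).poly p : PowerSeries ℂ) ^ (m k) := by
    unfold mpoly Finsupp.prod
    rw [← Polynomial.coeToPowerSeries.ringHom_apply, map_prod]
    refine Finset.prod_congr rfl fun k _ => ?_
    rw [map_pow, Polynomial.coeToPowerSeries.ringHom_apply]
  rw [h1]
  unfold mon Finsupp.prod
  rw [map_prod, ← Finset.prod_mul_distrib]
  refine Finset.prod_eq_one fun k hk => ?_
  rw [map_pow, ← mul_pow, (M k).locHom_af (hp k hk), one_pow]

/-- different Euler factors, different coefficients -/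
lemma exists_coeff (a b : ι →₀ ℕ) {p : Nat.Primes} (ha : ∀ k ∈ a.support, p ∉ (M k).badP)
    (hb : ∀ k ∈ b.support, p ∉ (M k).badP) (h : mpoly M a p ≠ mpoly M b p) :
    ∃ j, mon M a ((p : ℕ) ^ j) ≠ mon M b ((p : ℕ) ^ j) := by
  by_contra hcon
  push Not at hcon
  apply h
  have h1 : locHom p (mon M a) = locHom p (mon M b) := by
    change loc p _ = loc p _
    unfold loc
    congr 1
    funext j
    exact hcon j
  have h2 := locHom_mon M a ha
  have h3 := locHom_mon M b hb
  have h4 : (mpoly M a p : PowerSeries ℂ) = (mpoly M b p : PowerSeries ℂ) := by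
    calc (mpoly M a p : PowerSeries ℂ) =
        (locHom p (mon M b) * (mpoly M b p : PowerSeries ℂ)) * (mpoly M a p : PowerSeries ℂ) := by
          rw [h3, one_mul]
      _ = (locHom p (mon M a) * (mpoly M a p : PowerSeries ℂ)) * (mpoly M b p : PowerSeries ℂ) := by
          rw [h1]; ring
      _ = _ := by rw [h2, one_mul]
  exact Polynomial.coe_injective ℂ h4

/-- the two monomials have different Euler factors at infinitely many primes -/
def Diff (a b : ι →₀ ℕ) : Prop := ∃ᶠ p in cofinite, mpoly M a p ≠ mpoly M b p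

lemma exists_large {a b : ι →₀ ℕ} (h : Diff M a b) (B : ℕ) :
    ∃ q : ℕ, q.Prime ∧ B < q ∧ ∃ j, mon M a (q ^ j) ≠ mon M b (q ^ j) := by
  classical
  have h1 : ∀ᶠ p : Nat.Primes in cofinite, (∀ k ∈ a.support, p ∉ (M k).badP) ∧
      (∀ k ∈ b.support, p ∉ (M k).badP) ∧ B < (p : ℕ) := by
    refine Eventually.and ?_ (Eventually.and ?_ ?_)
    · rw [eventually_all_finset]
      intro k _
      exact (M k).badP.eventually_cofinite_notMem
    · rw [eventually_all_finset]
      intro k _
      exact (M k).badP.eventually_cofinite_notMem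
    · have h2 : {p : Nat.Primes | ¬ B < (p : ℕ)}.Finite := by
        refine Set.Finite.of_injOn (t := Set.Iic B) (f := fun p : Nat.Primes => (p : ℕ)) ?_ ?_
          (Set.finite_Iic B)
        · intro p hp
          exact not_lt.1 hp
        · intro p _ q _ hpq
          exact Subtype.ext hpq
      exact h2
  obtain ⟨p, hp, h2, h3, h4⟩ := (h.and_eventually h1).exists
  exact ⟨p, p.2, h4, exists_coeff M a b h2 h3 hp⟩

end

end Pool.Agent.K6.H96.BV
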