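import Pool.Agent.K6.H96.BV.B4
import Pool.Agent.K6.H96.BV.B2

/-!
# Independence of the monomials over the polynomials in `s` and `p ^ (-s)`
-/

set_option autoImplicit false

namespace Pool.Agent.K6.H96.BV

open Complex Filter Topology

/-- the monoid of the functions `s ^ j n ^ (-s)` -/
abbrev Mn : Type := Multiplicative ℕ × ℕ+

/-- the value of `s ^ j n ^ (-s)` -/
noncomputable def psi (s : ℂ) : Mn →* ℂ where
  toFun x := s ^ (Multiplicative.toAdd x.1) * ((x.2 : ℕ) : ℂ) ^ (-s)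
  map_one' := by simp
  map_mul' x y := by
    simp only [Prod.fst_mul, Prod.snd_mul, toAdd_mul, PNat.mul_coe]
    rw [Nat.cast_mul, Complex.natCast_mul_natCast_cpow, pow_add]
    ring

/-- evaluation -/
noncomputable def evq (s : ℂ) : MonoidAlgebra ℂ Mn →ₐ[ℂ] ℂ := MonoidAlgebra.lift ℂ ℂ Mn (psi s)

/-- polynomials in `s` and the `n ^ (-s)` -/
def DP (f : ℂ → ℂ) : Prop := ∃ Q : MonoidAlgebra ℂ Mn, ∀ s, f s = evq s Q

lemma DP.add {f g : ℂ → ℂ} (hf : DP f) (hg : DP g) : DP (fun s => f s + g s) := by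
  obtain ⟨P, hP⟩ := hf
  obtain ⟨Q, hQ⟩ := hg
  exact ⟨P + Q, fun s => by
    change f s + g s = _
    rw [map_add, hP, hQ]⟩

lemma DP.mul {f g : ℂ → ℂ} (hf : DP f) (hg : DP g) : DP (fun s => f s * g s) := by
  obtain ⟨P, hP⟩ := hf
  obtain ⟨Q, hQ⟩ := hg
  exact ⟨P * Q, fun s => by
    change f s * g s = _
    rw [map_mul, hP, hQ]⟩

lemma DP.const (c : ℂ) : DP (fun _ => c) :=
  ⟨algebraMap ℂ _ c, fun s => by rw [AlgHom.commutes]; rfl⟩

lemma evq_single (s : ℂ) (x : Mn) (c : ℂ) : evq s (MonoidAlgebra.single x c) = c * psi s x := by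
  unfold evq
  rw [MonoidAlgebra.lift_single, smul_eq_mul]

lemma DP.id : DP (fun s => s) :=
  ⟨MonoidAlgebra.single (Multiplicative.ofAdd 1, 1) 1, fun s => by
    rw [evq_single, one_mul]
    simp [psi]⟩

lemma DP.cpow (n : ℕ+) : DP (fun s => ((n : ℕ) : ℂ) ^ (-s)) :=
  ⟨MonoidAlgebra.single (1, n) 1, fun s => by
    rw [evq_single, one_mul]
    simp [psi]⟩

/-- the Dirichlet polynomial at `s ^ j` -/
noncomputable def dco (Q : MonoidAlgebra ℂ Mn) (j : ℕ) : ArithmeticFunction ℂ :=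
  ⟨fun n => if n = 0 then 0 else Q.coeff (Multiplicative.ofAdd j, n.toPNat'), by simp⟩

lemma dco_apply (Q : MonoidAlgebra ℂ Mn) (j : ℕ) (n : ℕ+) :
    dco Q j n = Q.coeff (Multiplicative.ofAdd j, n) := by
  change (if (n : ℕ) = 0 then 0 else Q.coeff (Multiplicative.ofAdd j, (n : ℕ).toPNat')) = _
  rw [if_neg n.ne_zero, PNat.coe_toPNat']

lemma exists_bound (Q : MonoidAlgebra ℂ Mn) : ∃ B : ℕ, ∀ x ∈ Q.coeff.support,
    Multiplicative.toAdd x.1 < B ∧ (x.2 : ℕ) ≤ B := by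
  classical
  refine ⟨(Q.coeff.support.sup fun x => Multiplicative.toAdd x.1 + (x.2 : ℕ)) + 1, fun x hx => ?_⟩
  have h : Multiplicative.toAdd x.1 + (x.2 : ℕ) ≤
      Q.coeff.support.sup fun x => Multiplicative.toAdd x.1 + (x.2 : ℕ) :=
    Finset.le_sup (f := fun x : Mn => Multiplicative.toAdd x.1 + (x.2 : ℕ)) hx
  omega

lemma dco_zero_of {Q : MonoidAlgebra ℂ Mn} {B : ℕ} (hB : ∀ x ∈ Q.coeff.support,
    Multiplicative.toAdd x.1 < B ∧ (x.2 : ℕ) ≤ B) (j n : ℕ) (hn : B < n) : dco Q j n = 0 := by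
  obtain ⟨m, rfl⟩ : ∃ m : ℕ+, n = m := ⟨⟨n, by omega⟩, rfl⟩
  rw [dco_apply]
  by_contra hne
  have := (hB _ (Finsupp.mem_support_iff.2 hne)).2
  change (m : ℕ) ≤ B at this
  omega

/-- the sum over one power of `s` -/
lemma hasSum_dco (Q : MonoidAlgebra ℂ Mn) (j : ℕ) (s : ℂ) :
    HasSum (LSeries.term (dco Q j) s)
      (∑ x ∈ Q.coeff.support.filter (fun x => Multiplicative.toAdd x.1 = j),
        Q.coeff x * ((x.2 : ℕ) : ℂ) ^ (-s)) := by
  classical
  set S := Q.coeff.support.filter (fun x => Multiplicative.toAdd x.1 = j) with hS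
  have h1 : ∀ n ∉ S.image (fun x => (x.2 : ℕ)), LSeries.term (dco Q j) s n = 0 := by
    intro n hn
    rcases Nat.eq_zero_or_pos n with rfl | hn0
    · exact LSeries.term_zero _ _
    obtain ⟨m, rfl⟩ : ∃ m : ℕ+, n = m := ⟨⟨n, hn0⟩, rfl⟩
    rw [LSeries.term_of_ne_zero hn0.ne', dco_apply]
    by_cases h0 : Q.coeff (Multiplicative.ofAdd j, m) = 0
    · rw [h0, zero_div]
    · exfalso
      apply hn
      rw [Finset.mem_image]
      refine ⟨(Multiplicative.ofAdd j, m), ?_, rfl⟩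
      rw [hS, Finset.mem_filter]
      exact ⟨Finsupp.mem_support_iff.2 h0, rfl⟩
  have h2 : HasSum (LSeries.term (dco Q j) s)
      (∑ n ∈ S.image (fun x => (x.2 : ℕ)), LSeries.term (dco Q j) s n) :=
    hasSum_sum_of_ne_finset_zero h1
  rw [Finset.sum_image] at h2
  · convert h2 using 1
    refine Finset.sum_congr rfl fun x hx => ?_
    rw [hS, Finset.mem_filter] at hx
    rw [LSeries.term_of_ne_zero x.2.ne_zero, dco_apply, Complex.cpow_neg, div_eq_mul_inv]
    congr 2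
    refine Prod.ext ?_ rfl
    rw [← hx.2]
    rfl
  · intro x hx y hy hxy
    rw [hS, Finset.coe_filter] at hx hy
    refine Prod.ext ?_ (PNat.coe_injective hxy)
    have : Multiplicative.toAdd x.1 = Multiplicative.toAdd y.1 := by rw [hx.2, hy.2]
    exact Multiplicative.toAdd.injective this

lemma evq_eq (Q : MonoidAlgebra ℂ Mn) {B : ℕ} (hB : ∀ x ∈ Q.coeff.support,
    Multiplicative.toAdd x.1 < B ∧ (x.2 : ℕ) ≤ B) (s : ℂ) :
    evq s Q = ∑ j ∈ Finset.range B, s ^ j * LSeries (dco Q j) s := by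
  classical
  have h1 : evq s Q = ∑ x ∈ Q.coeff.support, Q.coeff x * psi s x := by
    unfold evq
    rw [MonoidAlgebra.lift_apply]
    rfl
  rw [h1, ← Finset.sum_fiberwise_of_maps_to (s := Q.coeff.support) (t := Finset.range B)
    (g := fun x => Multiplicative.toAdd x.1) (fun x hx => Finset.mem_range.2 (hB x hx).1)]
  refine Finset.sum_congr rfl fun j _ => ?_
  have h2 : LSeries (dco Q j) s = _ := (hasSum_dco Q j s).tsum_eq
  rw [h2, Finset.mul_sum]
  refine Finset.sum_congr rfl fun x hx => ?_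
  rw [Finset.mem_filter] at hx
  change Q.coeff x * (s ^ (Multiplicative.toAdd x.1) * ((x.2 : ℕ) : ℂ) ^ (-s)) = _
  rw [hx.2]
  ring

/-- a function in the class is zero if all the Dirichlet polynomials are zero -/
lemma evq_zero_of {Q : MonoidAlgebra ℂ Mn} {B : ℕ} (hB : ∀ x ∈ Q.coeff.support,
    Multiplicative.toAdd x.1 < B ∧ (x.2 : ℕ) ≤ B) (h : ∀ j < B, dco Q j = 0) (s : ℂ) :
    evq s Q = 0 := by
  rw [evq_eq Q hB]
  refine Finset.sum_eq_zero fun j hj => ?_
  rw [h j (Finset.mem_range.1 hj)]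
  have h2 : LSeries (⇑(0 : ArithmeticFunction ℂ)) s = 0 := by
    have : (⇑(0 : ArithmeticFunction ℂ)) = (0 : ℕ → ℂ) := rfl
    rw [this, LSeries_zero]
    rfl
  rw [h2, mul_zero]

lemma coe_sum {κ : Type} (T : Finset κ) (F : κ → ArithmeticFunction ℂ) (n : ℕ) :
    (∑ i ∈ T, F i) n = ∑ i ∈ T, F i n := by
  classical
  induction T using Finset.induction_on with
  | empty => rfl
  | insert a T ha ih =>
    rw [Finset.sum_insert ha, Finset.sum_insert ha, ArithmeticFunction.add_apply, ih]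

section
variable {ι : Type} (M : ι → Motive)

/-- **Independence** of the monomials. -/
theorem indep (T : Finset (ι →₀ ℕ)) (hT : ∀ a ∈ T, ∀ b ∈ T, a ≠ b → Diff M a b)
    (f : (ι →₀ ℕ) → ℂ → ℂ) (hf : ∀ m ∈ T, DP (f m))
    (h : ∀ s : ℂ, 1 < s.re → ∑ m ∈ T, f m s * gmon M m s = 0) :
    ∀ m ∈ T, ∀ s, f m s = 0 := by
  classical
  choose! Q hQ using hf
  -- a common bound
  obtain ⟨B, hB⟩ : ∃ B : ℕ, ∀ m ∈ T, ∀ x ∈ (Q m).coeff.support,
      Multiplicative.toAdd x.1 < B ∧ (x.2 : ℕ) ≤ B := by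
    choose! B hB using fun m => exists_bound (Q m)
    refine ⟨T.sup B, fun m hm x hx => ?_⟩
    have h1 := Finset.le_sup (f := B) hm
    have h2 := hB m x hx
    exact ⟨h2.1.trans_le h1, h2.2.trans h1⟩
  -- the coefficients at `s ^ j`
  set c : ℕ → ArithmeticFunction ℂ := fun j => ∑ m ∈ T, dco (Q m) j * mon M m with hc
  have hsum1 : ∀ j m, m ∈ T → ∀ s : ℂ, 1 < s.re →
      LSeriesSummable (dco (Q m) j * mon M m : ArithmeticFunction ℂ) s ∧
      LSeries (dco (Q m) j * mon M m : ArithmeticFunction ℂ) s =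
        LSeries (dco (Q m) j) s * gmon M m s := by
    intro j m _ s hs
    have h1 : LSeriesSummable (dco (Q m) j) s := (hasSum_dco (Q m) j s).summable
    obtain ⟨h2, h3⟩ := mon_LS M m hs
    exact ⟨ArithmeticFunction.LSeriesSummable_mul h1 h2,
      by rw [ArithmeticFunction.LSeries_mul' h1 h2, h3]⟩
  have hsum2 : ∀ j, ∀ s : ℂ, 1 < s.re → LSeriesSummable (c j) s ∧
      LSeries (c j) s = ∑ m ∈ T, LSeries (dco (Q m) j) s * gmon M m s := by
    intro j s hs
    have e : (⇑(c j) : ℕ → ℂ) = ∑ m ∈ T, (⇑(dco (Q m) j * mon M m : ArithmeticFunction ℂ) : ℕ → ℂ) := by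
      funext n
      rw [hc, Finset.sum_apply]
      exact coe_sum _ _ _
    rw [e]
    refine ⟨LSeriesSummable.sum fun m hm => (hsum1 j m hm s hs).1, ?_⟩
    rw [LSeries_sum fun m hm => (hsum1 j m hm s hs).1]
    exact Finset.sum_congr rfl fun m hm => (hsum1 j m hm s hs).2
  have habs : ∀ j, LSeries.abscissaOfAbsConv (c j) < ⊤ := by
    intro j
    have h2 : (1 : ℝ) < ((2 : ℝ) : ℂ).re := by simp
    have h1 : LSeriesSummable (c j) ((2 : ℝ) : ℂ) := (hsum2 j _ h2).1
    refine lt_of_le_of_lt (h1.abscissaOfAbsConv_le) ?_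
    exact EReal.coe_lt_top _
  have hc0 : ∀ j < B, c j = 0 := by
    refine sep B c habs ?_
    filter_upwards [eventually_gt_atTop 1] with x hx
    have hx' : 1 < ((x : ℝ) : ℂ).re := by simpa using hx
    rw [← h x hx']
    have e1 : ∀ m ∈ T, f m x * gmon M m x =
        ∑ j ∈ Finset.range B, (x : ℂ) ^ j * (LSeries (dco (Q m) j) x * gmon M m x) := by
      intro m hm
      rw [hQ m hm, evq_eq (Q m) (hB m hm), Finset.sum_mul]
      exact Finset.sum_congr rfl fun j _ => by ring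
    rw [Finset.sum_congr rfl e1, Finset.sum_comm]
    refine Finset.sum_congr rfl fun j _ => ?_
    rw [(hsum2 j x hx').2, Finset.mul_sum]
  have hd : ∀ j < B, ∀ m ∈ T, dco (Q m) j = 0 := by
    intro j hj m hm
    have h1 := ded (F := mon M) (mon_mult M) T
      (fun a ha b hb hab B' => exists_large M (hT a ha b hb hab) B') 1 one_ne_zero
      (fun m => dco (Q m) j) B (fun m hm n hn => dco_zero_of (hB m hm) j n hn)
      (fun n _ => by
        rw [← coe_sum]
        have h2 : c j n = 0 := by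
          rw [hc0 j hj]
          rfl
        exact h2) m hm
    exact ArithmeticFunction.ext fun n => h1 n (Nat.coprime_one_right n)
  intro m hm s
  rw [hQ m hm]
  exact evq_zero_of (hB m hm) (fun j hj => hd j hj m hm) s

end

end Pool.Agent.K6.H96.BV
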