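import Pool.Agent.K6.H96.BV.N4

/-!
# Continuation or transcendence for the ring generated by all `L`-functions
-/

set_option autoImplicit false

namespace Pool.Agent.K6.H96.BV

open Complex Set Filter Topology MeasureTheory
open Pool.Agent.TH345.ET (ep tendsto_ep vals)

section
variable {ι : Type} (M : ι → Motive)

/-- the exceptional set of the family -/
def excs : Set ℝ := ⋃ k, (M k).exc

lemma dimH_excs [Countable ι] : dimH (excs M) = 0 := by
  unfold excs
  rw [dimH_iUnion]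
  exact nonpos_iff_eq_zero.1 (iSup_le fun k => ((M k).dimH_exc).le)

lemma ae_excs [Countable ι] : ∀ᵐ τ : ℝ, τ ∉ excs M := by
  refine measure_eq_zero_iff_ae_notMem.1 ?_
  unfold excs
  exact measure_iUnion_null fun k => (M k).volume_exc

lemma nice_ring (A : Set (ℂ → ℂ)) {τ : ℝ} (hτ : τ ∉ excs M) {f : ℂ → ℂ} (hf : f ∈ ringAt M A τ) :
    Nice f τ := by
  have hk : ∀ k, τ ∉ (M k).exc := fun k h => hτ (Set.mem_iUnion.2 ⟨k, h⟩)
  refine nice_adjoin ?_ hf
  rintro f (⟨_, hf⟩ | ⟨k, rfl | rfl⟩)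
  · exact Nice.of_analytic hf
  · exact (M k).nice (hk k)
  · exact (M k).nice_inv (hk k)

/-- the ring generated by all functions -/
noncomputable def ringAll (A : Set (ℂ → ℂ)) : Subalgebra ℚ (ℂ → ℂ) :=
  Algebra.adjoin ℚ (A ∪ {f | ∃ k, f = (M k).nL ∨ f = fun s => ((M k).nL s)⁻¹})

lemma ringAt_le (A : Set (ℂ → ℂ)) (τ : ℝ) : ringAt M A τ ≤ ringAll M A := by
  refine Algebra.adjoin_mono ?_
  rintro f (⟨h, _⟩ | h)
  · exact Or.inl h
  · exact Or.inr h

lemma countable_ringAll [Countable ι] {A : Set (ℂ → ℂ)} (hA : A.Countable) :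
    (ringAll M A : Set (ℂ → ℂ)).Countable := by
  refine countable_adjoin (hA.union ?_)
  have h : {f : ℂ → ℂ | ∃ k, f = (M k).nL ∨ f = fun s => ((M k).nL s)⁻¹} =
      (Set.range fun k => (M k).nL) ∪ Set.range fun k => fun s => ((M k).nL s)⁻¹ := by
    ext f
    constructor
    · rintro ⟨k, rfl | rfl⟩
      · exact Or.inl ⟨k, rfl⟩
      · exact Or.inr ⟨k, rfl⟩
    · rintro (⟨k, rfl⟩ | ⟨k, rfl⟩)
      · exact ⟨k, Or.inl rfl⟩
      · exact ⟨k, Or.inr rfl⟩
  rw [h]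
  exact (Set.countable_range _).union (Set.countable_range _)

/-- a boundary value in the field -/
lemma mem_fieldAt {A : Set (ℂ → ℂ)} {τ : ℝ} {f : ℂ → ℂ} (hf : f ∈ ringAt M A τ)
    (hc : Continues f τ) {v : ℂ} (hv : HasBoundaryValue f τ v) : v ∈ fieldAt M A τ :=
  IntermediateField.subset_adjoin _ _ ⟨f, hf, hc, hv⟩

/-- **The main theorem.** -/
theorem ae_main [Countable ι] {A : Set (ℂ → ℂ)} (hA : A.Countable) :
    ∀ᵐ τ : ℝ, ∀ f ∈ ringAt M A τ, ∀ v, HasBoundaryValue f τ v →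
      (IsAlgebraic (fieldAt M A τ) v ↔ Continues f τ) ∧
      (v = 0 → ∀ᶠ s in 𝓝 (edge τ), 1 < s.re → f s = 0) := by
  have hR := countable_ringAll M hA
  filter_upwards [ae_excs M, ae_transcendental' hR, ae_zero hR] with τ h1 h2 h3 f hf v hv
  have hn := nice_ring M A h1 hf
  refine ⟨⟨fun halg => ?_, fun hc => ?_⟩, ?_⟩
  · refine h2 f (ringAt_le M A τ hf) hn.1 v hv.rad (alg_mono (IntermediateField.adjoin.mono _ _ _ ?_)
      halg)
    rintro w ⟨g, hg, hgc, hgw⟩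
    exact ⟨g, ringAt_le M A τ hg, hgc, hgw.rad⟩
  · have h4 := mem_fieldAt M hf hc hv
    exact isAlgebraic_algebraMap (⟨v, h4⟩ : fieldAt M A τ)
  · rintro rfl
    exact h3 f (ringAt_le M A τ hf) hn.1 hv.rad

end

end Pool.Agent.K6.H96.BV
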