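import Pool.Agent.K6.H96.BV.B5
import Pool.Agent.K6.H96.BV.N5

/-!
# Independence of the monomials in the boundary values
-/

set_option autoImplicit false

namespace Pool.Agent.K6.H96.BV

open Complex Set Filter Topology MeasureTheory
open Pool.Agent.TH339.MP (PP FF bl ap ae_notMem differentiableOn_FF)
open Pool.Agent.TH345.ET (ep tendsto_ep vals)
open Pool.Agent.W350.Edge (divSet)

/-- the generators of the field of constants -/
def gens (E : Set ℂ) (τ : ℝ) : Set ℂ :=
  E ∪ {(τ : ℂ)} ∪ {z | ∃ p : Nat.Primes, z = ((p : ℕ) : ℂ) ^ ((τ : ℂ) * Complex.I)}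

/-- the field of constants -/
noncomputable def kf (E : Set ℂ) (τ : ℝ) : IntermediateField ℚ ℂ :=
  IntermediateField.adjoin ℚ (gens E τ)

/-- the functions with the generators as values -/
def gfun (E : Set ℂ) : Set (ℂ → ℂ) :=
  ((fun e : ℂ => fun _ : ℂ => e) '' E ∪ {fun s => (s - 1) * (-Complex.I)}) ∪
    Set.range (fun p : Nat.Primes => fun s : ℂ => ((p : ℕ) : ℂ) * ((p : ℕ) : ℂ) ^ (-s))

lemma countable_gfun {E : Set ℂ} (hE : E.Countable) : (gfun E).Countable :=
  ((hE.image _).union (Set.countable_singleton _)).union (Set.countable_range _)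

lemma analytic_cpow_neg (p : Nat.Primes) (z : ℂ) :
    AnalyticAt ℂ (fun s : ℂ => ((p : ℕ) : ℂ) ^ (-s)) z := by
  have hq0 : ((p : ℕ) : ℂ) ≠ 0 := Nat.cast_ne_zero.2 p.2.ne_zero
  have h1 : (fun s : ℂ => ((p : ℕ) : ℂ) ^ (-s)) = fun s => Complex.exp (Complex.log ((p : ℕ) : ℂ) *
      (-s)) := by
    funext s
    rw [Complex.cpow_def_of_ne_zero hq0]
  rw [h1]
  fun_prop

/-- the ring generated by these functions -/
noncomputable def gring (E : Set ℂ) : Subalgebra ℚ (ℂ → ℂ) := Algebra.adjoin ℚ (gfun E)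

lemma gring_analytic {E : Set ℂ} {f : ℂ → ℂ} (hf : f ∈ gring E) (z : ℂ) : AnalyticAt ℂ f z := by
  induction hf using Algebra.adjoin_induction with
  | mem f hf =>
    rcases hf with (⟨e, _, rfl⟩ | hf) | ⟨p, rfl⟩
    · exact analyticAt_const
    · rw [Set.mem_singleton_iff] at hf
      rw [hf]
      fun_prop
    · exact analyticAt_const.mul (analytic_cpow_neg p z)
  | algebraMap c => exact analyticAt_const (v := algebraMap ℚ ℂ c)
  | add f g _ _ hf hg => exact hf.add hg
  | mul f g _ _ hf hg => exact hf.mul hg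

lemma gring_DP {E : Set ℂ} {f : ℂ → ℂ} (hf : f ∈ gring E) : DP f := by
  induction hf using Algebra.adjoin_induction with
  | mem f hf =>
    rcases hf with (⟨e, _, rfl⟩ | hf) | ⟨p, rfl⟩
    · exact DP.const e
    · rw [Set.mem_singleton_iff] at hf
      rw [hf]
      have h := (DP.id.add (DP.const (-1))).mul (DP.const (-Complex.I))
      exact h
    · exact (DP.const _).mul (DP.cpow ⟨(p : ℕ), p.2.pos⟩)
  | algebraMap c => exact DP.const (algebraMap ℚ ℂ c)
  | add f g _ _ hf hg => exact hf.add hg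
  | mul f g _ _ hf hg => exact hf.mul hg

lemma ep_cpow (p : Nat.Primes) (τ : ℝ) :
    ((p : ℕ) : ℂ) * ((p : ℕ) : ℂ) ^ (-(ep τ)) = (((p : ℕ) : ℂ) ^ ((τ : ℂ) * Complex.I))⁻¹ := by
  have hq0 : ((p : ℕ) : ℂ) ≠ 0 := Nat.cast_ne_zero.2 p.2.ne_zero
  rw [← Complex.cpow_neg]
  have h1 : -(ep τ) = -1 + -((τ : ℂ) * Complex.I) := by
    unfold ep
    ring
  rw [h1, Complex.cpow_add _ _ hq0, Complex.cpow_neg_one, ← mul_assoc, mul_inv_cancel₀ hq0, one_mul]

/-- evaluation at the point -/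
noncomputable def evp (τ : ℝ) : (ℂ → ℂ) →ₐ[ℚ] ℂ := Pi.evalAlgHom ℚ (fun _ => ℂ) (ep τ)

lemma evp_apply (τ : ℝ) (f : ℂ → ℂ) : evp τ f = f (ep τ) := rfl

lemma mem_kf {E : Set ℂ} {τ : ℝ} {x : ℂ} (hx : x ∈ kf E τ) :
    ∃ r ∈ gring E, ∃ d ∈ gring E, d (ep τ) ≠ 0 ∧ x * d (ep τ) = r (ep τ) := by
  have hle : kf E τ ≤ IntermediateField.adjoin ℚ (evp τ '' gfun E) := by
    unfold kf
    rw [IntermediateField.adjoin_le_iff]
    rintro z ((hz | hz) | ⟨p, rfl⟩)
    · exact IntermediateField.subset_adjoin _ _ ⟨_, Or.inl (Or.inl ⟨z, hz, rfl⟩), rfl⟩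
    · rw [Set.mem_singleton_iff] at hz
      refine IntermediateField.subset_adjoin _ _ ⟨_, Or.inl (Or.inr rfl), ?_⟩
      rw [evp_apply, hz]
      unfold ep
      have := Complex.I_mul_I
      linear_combination (-(τ : ℂ)) * this
    · have h1 : ((p : ℕ) : ℂ) * ((p : ℕ) : ℂ) ^ (-(ep τ)) ∈
          IntermediateField.adjoin ℚ (evp τ '' gfun E) :=
        IntermediateField.subset_adjoin _ _ ⟨_, Or.inr ⟨p, rfl⟩, rfl⟩
      rw [ep_cpow] at h1
      have h2 := inv_mem h1
      rwa [inv_inv] at h2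
  have h1 := hle hx
  rw [IntermediateField.mem_adjoin_iff_div] at h1
  obtain ⟨r, hr, d, hd, hx⟩ := h1
  rw [← AlgHom.map_adjoin] at hr hd
  obtain ⟨r', hr', hr2⟩ := hr
  obtain ⟨d', hd', hd2⟩ := hd
  by_cases h0 : d = 0
  · refine ⟨0, zero_mem _, 1, one_mem _, one_ne_zero, ?_⟩
    rw [hx, h0, div_zero]
    simp
  · refine ⟨r', hr', d', hd', ?_, ?_⟩
    · change evp τ d' ≠ 0
      intro h
      apply h0
      rw [← hd2]
      exact h
    · have e1 : d' (ep τ) = d := hd2
      have e2 : r' (ep τ) = r := hr2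
      rw [e1, e2, hx, div_mul_cancel₀ _ h0]

lemma common_den {E : Set ℂ} {τ : ℝ} {κ : Type} (T : Finset κ) (c : κ → ℂ)
    (hc : ∀ i ∈ T, c i ∈ kf E τ) :
    ∃ D ∈ gring E, D (ep τ) ≠ 0 ∧ ∀ i ∈ T, ∃ r ∈ gring E, c i * D (ep τ) = r (ep τ) := by
  classical
  induction T using Finset.induction_on with
  | empty => exact ⟨1, one_mem _, one_ne_zero, by simp⟩
  | insert a T ha ih =>
    obtain ⟨D, hD, hD0, hr⟩ := ih fun i hi => hc i (Finset.mem_insert_of_mem hi)
    obtain ⟨r, hr', d, hd, hd0, hx⟩ := mem_kf (hc a (Finset.mem_insert_self _ _))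
    refine ⟨D * d, mul_mem hD hd, mul_ne_zero hD0 hd0, fun i hi => ?_⟩
    rcases Finset.mem_insert.1 hi with rfl | hi
    · refine ⟨D * r, mul_mem hD hr', ?_⟩
      change c i * (D (ep τ) * d (ep τ)) = D (ep τ) * r (ep τ)
      rw [← hx]
      ring
    · obtain ⟨r2, hr2, h2⟩ := hr i hi
      refine ⟨r2 * d, mul_mem hr2 hd, ?_⟩
      change c i * (D (ep τ) * d (ep τ)) = r2 (ep τ) * d (ep τ)
      rw [← h2]
      ring

section
variable {ι : Type} (M : ι → Motive)

/-- the boundary value of the exponential -/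
noncomputable def gv (k : ι) (τ : ℝ) : ℂ := Complex.exp (bl (M k).co τ)

/-- the boundary value of a monomial -/
noncomputable def gval (m : ι →₀ ℕ) (τ : ℝ) : ℂ := m.prod fun k n => gv M k τ ^ n

/-- the ring with the exponentials -/
noncomputable def bring (E : Set ℂ) : Subalgebra ℚ (ℂ → ℂ) :=
  Algebra.adjoin ℚ (gfun E ∪ Set.range fun k => fun s => Complex.exp (FF (M k).co s))

lemma countable_bring [Countable ι] {E : Set ℂ} (hE : E.Countable) :
    (bring M E : Set (ℂ → ℂ)).Countable :=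
  countable_adjoin ((countable_gfun hE).union (Set.countable_range _))

lemma gring_le (E : Set ℂ) : gring E ≤ bring M E := Algebra.adjoin_mono Set.subset_union_left

lemma gmon_mem (E : Set ℂ) (m : ι →₀ ℕ) : gmon M m ∈ bring M E := by
  have h : gmon M m = ∏ k ∈ m.support, (fun s => Complex.exp (FF (M k).co s)) ^ (m k) := by
    funext s
    rw [Finset.prod_apply]
    rfl
  rw [h]
  refine Subalgebra.prod_mem _ fun k _ => Subalgebra.pow_mem _ ?_ _
  exact Algebra.subset_adjoin (Or.inr ⟨k, rfl⟩)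

lemma nice_bring {E : Set ℂ} {τ : ℝ} (hτ : τ ∉ excs M) {f : ℂ → ℂ} (hf : f ∈ bring M E) :
    Nice f τ := by
  refine nice_adjoin ?_ hf
  rintro f (hf | ⟨k, rfl⟩)
  · exact Nice.of_analytic (gring_analytic (E := E) (Algebra.subset_adjoin hf) _)
  · have hk : τ ∉ divSet (ap (M k).co) := fun h => hτ (Set.mem_iUnion.2 ⟨k, Or.inl h⟩)
    exact ⟨NV.exp_FF (M k).norm_co τ, _, hasBV_exp (M k).norm_co hk⟩

lemma rad_gmon {τ : ℝ} (hτ : τ ∉ excs M) (m : ι →₀ ℕ) : Rad (gmon M m) τ (gval M m τ) := by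
  unfold Rad gmon gval Finsupp.prod
  refine tendsto_finsetProd _ fun k _ => ?_
  have hk : τ ∉ divSet (ap (M k).co) := fun h => hτ (Set.mem_iUnion.2 ⟨k, Or.inl h⟩)
  have h1 : Rad (fun s => Complex.exp (FF (M k).co s)) τ (gv M k τ) :=
    (hasBV_exp (M k).norm_co hk).rad
  exact Tendsto.pow h1 _

lemma gmon_analytic (m : ι →₀ ℕ) {s : ℂ} (hs : 1 < s.re) : AnalyticAt ℂ (gmon M m) s := by
  unfold gmon Finsupp.prod
  refine Finset.analyticAt_fun_prod _ fun k _ => ?_
  have h1 := (differentiableOn_FF (M k).norm_co).analyticAt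
    ((isOpen_lt continuous_const Complex.continuous_re).mem_nhds hs)
  exact h1.cexp.pow _

/-- the property of the almost every point -/
def Core (E : Set ℂ) (τ : ℝ) : Prop :=
  τ ∉ excs M ∧ ∀ T : Finset (ι →₀ ℕ), (∀ a ∈ T, ∀ b ∈ T, a ≠ b → Diff M a b) →
    ∀ c : (ι →₀ ℕ) → ℂ, (∀ m ∈ T, c m ∈ kf E τ) → ∑ m ∈ T, c m * gval M m τ = 0 →
      ∀ m ∈ T, c m = 0

/-- **Independence of the monomials in the boundary values.** -/
theorem ae_core [Countable ι] {E : Set ℂ} (hE : E.Countable) : ∀ᵐ τ : ℝ, Core M E τ := by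
  filter_upwards [ae_excs M, ae_zero (countable_bring M hE)] with τ h1 h2
  refine ⟨h1, fun T hT c hc hsum => ?_⟩
  obtain ⟨D, hD, hD0, hr⟩ := common_den T c hc
  choose! r hr1 hr2 using hr
  set F : ℂ → ℂ := fun s => ∑ m ∈ T, r m s * gmon M m s with hF
  have hFm : F ∈ bring M E := by
    have h : F = ∑ m ∈ T, r m * gmon M m := by
      funext s
      rw [Finset.sum_apply]
      rfl
    rw [h]
    exact Subalgebra.sum_mem _ fun m hm => mul_mem (gring_le M E (hr1 m hm)) (gmon_mem M E m)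
  have hrad : Rad F τ 0 := by
    have h3 : Rad F τ (∑ m ∈ T, r m (ep τ) * gval M m τ) := by
      unfold Rad
      rw [hF]
      refine tendsto_finsetSum _ fun m hm => ?_
      have h4 : Rad (r m) τ (r m (ep τ)) := Rad.of_analytic (gring_analytic (hr1 m hm) _)
      exact Tendsto.mul h4 (rad_gmon M h1 m)
    have h5 : ∑ m ∈ T, r m (ep τ) * gval M m τ = 0 := by
      have h6 : ∑ m ∈ T, r m (ep τ) * gval M m τ = D (ep τ) * ∑ m ∈ T, c m * gval M m τ := by
        rw [Finset.mul_sum]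
        refine Finset.sum_congr rfl fun m hm => ?_
        rw [← hr2 m hm]
        ring
      rw [h6, hsum, mul_zero]
    rwa [h5] at h3
  have h3 := h2 F hFm (nice_bring M h1 hFm).1 hrad
  -- the identity theorem
  have hall : ∀ s : ℂ, 1 < s.re → F s = 0 := by
    have hV : IsPreconnected {s : ℂ | 1 < s.re} := (convex_halfSpace_re_gt 1).isPreconnected
    have hA : AnalyticOnNhd ℂ F {s : ℂ | 1 < s.re} := by
      intro s hs
      rw [hF]
      refine Finset.analyticAt_fun_sum _ fun m hm => ?_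
      exact (gring_analytic (hr1 m hm) s).mul (gmon_analytic M m hs)
    obtain ⟨d, hd, hd'⟩ := Metric.eventually_nhds_iff_ball.1 h3
    set z0 : ℂ := ep τ + ((d / 2 : ℝ) : ℂ) with hz0
    have hz0m : z0 ∈ Metric.ball (ep τ) d ∩ {s : ℂ | 1 < s.re} := by
      constructor
      · rw [Metric.mem_ball, dist_eq_norm, hz0, add_sub_cancel_left, Complex.norm_real,
          Real.norm_of_nonneg (by positivity)]
        linarith
      · change 1 < z0.re
        rw [hz0, Complex.add_re, ep_re, Complex.ofReal_re]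
        linarith
    have hev : F =ᶠ[𝓝 z0] 0 := by
      have hopen : IsOpen (Metric.ball (ep τ) d ∩ {s : ℂ | 1 < s.re}) :=
        Metric.isOpen_ball.inter (isOpen_lt continuous_const Complex.continuous_re)
      filter_upwards [hopen.mem_nhds hz0m] with s hs
      exact hd' s hs.1 hs.2
    intro s hs
    exact hA.eqOn_zero_of_preconnected_of_eventuallyEq_zero hV hz0m.2 hev hs
  have h4 := indep M T hT r (fun m hm => gring_DP (hr1 m hm)) hall
  intro m hm
  have h5 := hr2 m hm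
  rw [h4 m hm] at h5
  exact (mul_eq_zero.1 h5).resolve_right hD0

end

end Pool.Agent.K6.H96.BV
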