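import Pool.Agent.K6.H96.BV.B6

/-!
# The multiplicative relations, and the algebraic relations
-/

set_option autoImplicit false

namespace Pool.Agent.K6.H96.BV

open Complex Filter Topology
open Pool.Agent.TH339.MP (PP FF bl ap)
open Pool.Agent.TH345.ET (ep tendsto_ep)

/-- comparison of two products that differ at finitely many places -/
lemma hasProd_compare {f g : Nat.Primes → ℂ} {x y : ℂ} (hf : HasProd f x) (hg : HasProd g y)
    (S : Finset Nat.Primes) (hS : ∀ p, p ∉ S → f p = g p) (hne : ∀ p ∈ S, f p ≠ 0) :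
    y * ∏ p ∈ S, f p = x * ∏ p ∈ S, g p := by
  classical
  have h1 : HasProd (fun p => if p ∈ S then (f p)⁻¹ * g p else 1)
      (∏ p ∈ S, (if p ∈ S then (f p)⁻¹ * g p else 1)) :=
    hasProd_prod_of_ne_finset_one fun p hp => if_neg hp
  have h2 := hf.mul h1
  have h3 : (fun p => f p * (if p ∈ S then (f p)⁻¹ * g p else 1)) = g := by
    funext p
    by_cases hp : p ∈ S
    · rw [if_pos hp, ← mul_assoc, mul_inv_cancel₀ (hne p hp), one_mul]
    · rw [if_neg hp, mul_one, hS p hp]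
  rw [h3] at h2
  have h4 := hg.unique h2
  have h5 : ∏ p ∈ S, (if p ∈ S then (f p)⁻¹ * g p else 1) = (∏ p ∈ S, f p)⁻¹ * ∏ p ∈ S, g p := by
    rw [← Finset.prod_inv_distrib, ← Finset.prod_mul_distrib]
    exact Finset.prod_congr rfl fun p hp => if_pos hp
  rw [h4, h5]
  have h6 : ∏ p ∈ S, f p ≠ 0 := Finset.prod_ne_zero_iff.2 hne
  field_simp

section
variable {ι : Type} (M : ι → Motive)

lemma mpoly_add (a b : ι →₀ ℕ) (p : Nat.Primes) : mpoly M (a + b) p = mpoly M a p * mpoly M b p := by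
  classical
  unfold mpoly
  exact Finsupp.prod_add_index' (fun _ => pow_zero _) (fun _ _ _ => pow_add _ _ _)

lemma mpoly_single (k : ι) (n : ℕ) (p : Nat.Primes) :
    mpoly M (Finsupp.single k n) p = (M k).poly p ^ n := by
  unfold mpoly
  exact Finsupp.prod_single_index (pow_zero _)

lemma mpoly_ne (a : ι →₀ ℕ) (p : Nat.Primes) : mpoly M a p ≠ 0 := by
  unfold mpoly Finsupp.prod
  exact Finset.prod_ne_zero_iff.2 fun k _ => pow_ne_zero _ ((M k).poly_ne p)

/-- the inverse Euler factor of a monomial -/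
noncomputable def mlf (m : ι →₀ ℕ) (p : Nat.Primes) (s : ℂ) : ℂ :=
  (mpoly M m p).eval (((p : ℕ) : ℂ) ^ (-s))

lemma mlf_eq (m : ι →₀ ℕ) (p : Nat.Primes) (s : ℂ) :
    mlf M m p s = ∏ k ∈ m.support, (M k).lf p s ^ (m k) := by
  unfold mlf mpoly Finsupp.prod
  rw [Polynomial.eval_prod]
  refine Finset.prod_congr rfl fun k _ => ?_
  rw [Polynomial.eval_pow, (M k).poly_eval]

/-- a monomial in the `L`-functions -/
noncomputable def Lmon (m : ι →₀ ℕ) (s : ℂ) : ℂ := m.prod fun k n => (M k).nL s ^ n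

lemma hasProd_Lmon (m : ι →₀ ℕ) {s : ℂ} (hs : 1 < s.re) :
    HasProd (fun p => (mlf M m p s)⁻¹) (Lmon M m s) := by
  have h1 : ∀ k ∈ m.support, HasProd (fun p : Nat.Primes => ((M k).lf p s)⁻¹ ^ (m k))
      ((M k).nL s ^ (m k)) := by
    intro k _
    have h2 := (M k).hasProd_lf hs
    rw [← (M k).nL_eq hs] at h2
    exact h2.map (powMonoidHom (m k)) (continuous_pow (m k))
  have h2 := hasProd_prod h1
  unfold Lmon Finsupp.prod
  convert h2 using 1
  funext p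
  rw [mlf_eq, ← Finset.prod_inv_distrib]
  refine Finset.prod_congr rfl fun k _ => ?_
  rw [inv_pow]

/-- the two monomials have the same Euler factors at almost all primes -/
def Sim (a b : ι →₀ ℕ) : Prop := ∀ᶠ p in cofinite, mpoly M a p = mpoly M b p

lemma Sim.refl (a : ι →₀ ℕ) : Sim M a a := Eventually.of_forall fun _ => rfl

lemma Sim.symm {a b : ι →₀ ℕ} (h : Sim M a b) : Sim M b a := by
  filter_upwards [h] with p hp
  exact hp.symm

lemma Sim.trans {a b c : ι →₀ ℕ} (h : Sim M a b) (h' : Sim M b c) : Sim M a c := by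
  filter_upwards [h, h'] with p hp hp'
  exact hp.trans hp'

lemma diff_of_not {a b : ι →₀ ℕ} (h : ¬ Sim M a b) : Diff M a b := by
  unfold Sim at h
  rw [not_eventually] at h
  exact h

lemma Lmon_compare {a b : ι →₀ ℕ} (h : Sim M a b) :
    ∃ S : Finset Nat.Primes, ∀ s : ℂ, 1 < s.re → (∀ p ∈ S, mlf M a p s ≠ 0) →
      Lmon M b s * ∏ p ∈ S, (mlf M a p s)⁻¹ = Lmon M a s * ∏ p ∈ S, (mlf M b p s)⁻¹ := by
  classical
  have hfin : {p | ¬ mpoly M a p = mpoly M b p}.Finite := h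
  refine ⟨hfin.toFinset, fun s hs hne => ?_⟩
  refine hasProd_compare (hasProd_Lmon M a hs) (hasProd_Lmon M b hs) _ (fun p hp => ?_)
    fun p hp => inv_ne_zero (hne p hp)
  rw [Set.Finite.mem_toFinset] at hp
  have hp' : mpoly M a p = mpoly M b p := by
    by_contra hcon
    exact hp hcon
  unfold mlf
  rw [hp']

lemma lf_ne {k : ι} {τ : ℝ} (hτ : τ ∉ (M k).exc) (p : Nat.Primes) : (M k).lf p (ep τ) ≠ 0 := by
  by_cases hp : p ∈ (M k).badP
  · intro h
    exact hτ (Or.inr ⟨p, hp, h⟩)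
  · rw [(M k).lf_good hp]
    refine Finset.prod_ne_zero_iff.2 fun j _ => ?_
    intro h
    have h1 : ‖(M k).al p j * ((p : ℕ) : ℂ) ^ (-(ep τ))‖ < 1 := by
      rw [norm_mul, Complex.norm_natCast_cpow_of_pos p.2.pos, Complex.neg_re, ep_re,
        Real.rpow_neg_one]
      have h2 := (M k).norm_al p p.2 (fun h => hp ((M k).mem_bad.1 h)) j
      have h3 : (((p : ℕ) : ℝ))⁻¹ < 1 := inv_lt_one_of_one_lt₀ (by exact_mod_cast p.2.one_lt)
      have h4 : 0 < (((p : ℕ) : ℝ))⁻¹ := inv_pos.2 (by exact_mod_cast p.2.pos)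
      calc ‖(M k).al p j‖ * (((p : ℕ) : ℝ))⁻¹ ≤ 1 * (((p : ℕ) : ℝ))⁻¹ :=
            mul_le_mul_of_nonneg_right h2 h4.le
        _ < 1 := by rw [one_mul]; exact h3
    rw [← sub_eq_zero.1 h, norm_one] at h1
    exact lt_irrefl _ h1

lemma mlf_ne {τ : ℝ} (hτ : τ ∉ excs M) (m : ι →₀ ℕ) (p : Nat.Primes) : mlf M m p (ep τ) ≠ 0 := by
  rw [mlf_eq]
  refine Finset.prod_ne_zero_iff.2 fun k _ => pow_ne_zero _ ?_
  exact lf_ne M (fun h => hτ (Set.mem_iUnion.2 ⟨k, h⟩)) p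

lemma mlf_analytic (m : ι →₀ ℕ) (p : Nat.Primes) (s : ℂ) : AnalyticAt ℂ (mlf M m p) s := by
  have h : mlf M m p = fun s => ∏ k ∈ m.support, (M k).lf p s ^ (m k) := by
    funext s
    exact mlf_eq M m p s
  rw [h]
  exact Finset.analyticAt_fun_prod _ fun k _ => ((M k).lf_analytic p s).pow _

/-- the boundary value of a monomial in the `L`-functions -/
noncomputable def lval (m : ι →₀ ℕ) (τ : ℝ) : ℂ := m.prod fun k n => (M k).bval τ ^ n

lemma lval_ne {τ : ℝ} (hτ : τ ∉ excs M) (m : ι →₀ ℕ) : lval M m τ ≠ 0 := by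
  unfold lval Finsupp.prod
  exact Finset.prod_ne_zero_iff.2 fun k _ =>
    pow_ne_zero _ ((M k).bval_ne fun h => hτ (Set.mem_iUnion.2 ⟨k, h⟩))

lemma lval_add (a b : ι →₀ ℕ) (τ : ℝ) : lval M (a + b) τ = lval M a τ * lval M b τ := by
  classical
  unfold lval
  exact Finsupp.prod_add_index' (fun _ => pow_zero _) (fun _ _ _ => pow_add _ _ _)

lemma lval_single (k : ι) (n : ℕ) (τ : ℝ) : lval M (Finsupp.single k n) τ = (M k).bval τ ^ n := by
  unfold lval
  exact Finsupp.prod_single_index (pow_zero _)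

lemma rad_Lmon {τ : ℝ} (hτ : τ ∉ excs M) (m : ι →₀ ℕ) : Rad (Lmon M m) τ (lval M m τ) := by
  unfold Rad Lmon lval Finsupp.prod
  refine tendsto_finsetProd _ fun k _ => ?_
  have h1 : Rad (M k).nL τ ((M k).bval τ) :=
    ((M k).hasBV fun h => hτ (Set.mem_iUnion.2 ⟨k, h⟩)).rad
  exact Tendsto.pow h1 _

/-- the relation between the boundary values -/
lemma lval_compare {a b : ι →₀ ℕ} (h : Sim M a b) {τ : ℝ} (hτ : τ ∉ excs M) :
    ∃ S : Finset Nat.Primes,
      lval M b τ * ∏ p ∈ S, (mlf M a p (ep τ))⁻¹ = lval M a τ * ∏ p ∈ S, (mlf M b p (ep τ))⁻¹ := by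
  obtain ⟨S, hS⟩ := Lmon_compare M h
  refine ⟨S, ?_⟩
  have hlim : ∀ c : ι →₀ ℕ, Rad (fun s => ∏ p ∈ S, (mlf M c p s)⁻¹) τ
      (∏ p ∈ S, (mlf M c p (ep τ))⁻¹) := by
    intro c
    unfold Rad
    refine tendsto_finsetProd _ fun p _ => ?_
    have h1 : Rad (mlf M c p) τ (mlf M c p (ep τ)) := Rad.of_analytic (mlf_analytic M c p _)
    exact Tendsto.inv₀ h1 (mlf_ne M hτ c p)
  have h1 : Rad (fun s => Lmon M b s * ∏ p ∈ S, (mlf M a p s)⁻¹) τ _ :=
    Tendsto.mul (rad_Lmon M hτ b) (hlim a)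
  have h2 : Rad (fun s => Lmon M a s * ∏ p ∈ S, (mlf M b p s)⁻¹) τ _ :=
    Tendsto.mul (rad_Lmon M hτ a) (hlim b)
  have hev : ∀ᶠ s in 𝓝 (ep τ), ∀ p ∈ S, mlf M a p s ≠ 0 := by
    rw [eventually_all_finset]
    intro p _
    exact (mlf_analytic M a p (ep τ)).continuousAt.eventually_ne (mlf_ne M hτ a p)
  have h3 : Rad (fun s => Lmon M b s * ∏ p ∈ S, (mlf M a p s)⁻¹) τ
      (lval M a τ * ∏ p ∈ S, (mlf M b p (ep τ))⁻¹) := by
    refine Rad.of_eventually ?_ h2
    filter_upwards [hev] with s hs hs1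
    exact hS s hs1 hs
  exact h1.unique h3

/-- the coefficients of the Euler factors are in `E` -/
def Coeffs (E : Set ℂ) : Prop := ∀ (k : ι) (p : Nat.Primes) (n : ℕ), ((M k).poly p).coeff n ∈ E

variable {M} {E : Set ℂ} (hE : Coeffs M E)
include hE

lemma cpow_mem (p : Nat.Primes) (τ : ℝ) : ((p : ℕ) : ℂ) ^ (-(ep τ)) ∈ kf E τ := by
  have hq0 : ((p : ℕ) : ℂ) ≠ 0 := Nat.cast_ne_zero.2 p.2.ne_zero
  have h1 := ep_cpow p τ
  have h2 : ((p : ℕ) : ℂ) ^ (-(ep τ)) = ((p : ℕ) : ℂ)⁻¹ * (((p : ℕ) : ℂ) ^ ((τ : ℂ) * Complex.I))⁻¹ := by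
    rw [← h1, ← mul_assoc, inv_mul_cancel₀ hq0, one_mul]
  rw [h2]
  refine mul_mem (inv_mem (natCast_mem _ _)) (inv_mem ?_)
  exact IntermediateField.subset_adjoin _ _ (Or.inr ⟨p, rfl⟩)

lemma lf_mem (k : ι) (p : Nat.Primes) (τ : ℝ) : (M k).lf p (ep τ) ∈ kf E τ := by
  rw [← (M k).poly_eval, Polynomial.eval_eq_sum_range]
  refine sum_mem fun i _ => mul_mem ?_ (pow_mem (cpow_mem hE p τ) _)
  exact IntermediateField.subset_adjoin _ _ (Or.inl (Or.inl (hE k p i)))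

lemma mlf_mem (m : ι →₀ ℕ) (p : Nat.Primes) (τ : ℝ) : mlf M m p (ep τ) ∈ kf E τ := by
  rw [mlf_eq]
  exact prod_mem fun k _ => pow_mem (lf_mem hE k p τ) _

/-- similar monomials have proportional boundary values -/
lemma ratio {a b : ι →₀ ℕ} (h : Sim M a b) {τ : ℝ} (hτ : τ ∉ excs M) :
    ∃ u ∈ kf E τ, lval M a τ = u * lval M b τ := by
  obtain ⟨S, hS⟩ := lval_compare M h hτ
  refine ⟨(∏ p ∈ S, (mlf M a p (ep τ))⁻¹) * ∏ p ∈ S, mlf M b p (ep τ),
    mul_mem (prod_mem fun p _ => inv_mem (mlf_mem hE a p τ)) (prod_mem fun p _ => mlf_mem hE b p τ), ?_⟩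
  have h1 : (∏ p ∈ S, (mlf M b p (ep τ))⁻¹) * ∏ p ∈ S, mlf M b p (ep τ) = 1 := by
    rw [← Finset.prod_mul_distrib]
    exact Finset.prod_eq_one fun p _ => inv_mul_cancel₀ (mlf_ne M hτ b p)
  calc lval M a τ = (lval M a τ * ∏ p ∈ S, (mlf M b p (ep τ))⁻¹) * ∏ p ∈ S, mlf M b p (ep τ) := by
        rw [mul_assoc, h1, mul_one]
    _ = _ := by
        rw [← hS]
        ring

lemma hh_mem (k : ι) (τ : ℝ) : (M k).hh (ep τ) ∈ kf E τ := by
  unfold Motive.hh
  exact prod_mem fun p _ => inv_mem (lf_mem hE k p τ)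

lemma lval_eq (m : ι →₀ ℕ) {τ : ℝ} (hτ : τ ∉ excs M) :
    ∃ H ∈ kf E τ, H ≠ 0 ∧ lval M m τ = H * gval M m τ := by
  refine ⟨∏ k ∈ m.support, (M k).hh (ep τ) ^ (m k),
    prod_mem fun k _ => pow_mem (hh_mem hE k τ) _, ?_, ?_⟩
  · refine Finset.prod_ne_zero_iff.2 fun k _ => pow_ne_zero _ ((M k).hh_ne fun h => ?_)
    exact hτ (Set.mem_iUnion.2 ⟨k, Or.inr h⟩)
  · unfold lval gval Finsupp.prod
    rw [← Finset.prod_mul_distrib]
    refine Finset.prod_congr rfl fun k _ => ?_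
    rw [← mul_pow]
    rfl

/-- independence of the monomials in the boundary values of the `L`-functions -/
lemma core_l {τ : ℝ} (hc : Core M E τ) (T : Finset (ι →₀ ℕ))
    (hT : ∀ a ∈ T, ∀ b ∈ T, a ≠ b → Diff M a b) (c : (ι →₀ ℕ) → ℂ) (hcm : ∀ m ∈ T, c m ∈ kf E τ)
    (h0 : ∑ m ∈ T, c m * lval M m τ = 0) : ∀ m ∈ T, c m = 0 := by
  have h1 : ∀ m : ι →₀ ℕ, ∃ H ∈ kf E τ, H ≠ 0 ∧ lval M m τ = H * gval M m τ :=
    fun m => lval_eq hE m hc.1
  choose H hH1 hH2 hH3 using h1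
  have h2 := hc.2 T hT (fun m => c m * H m) (fun m hm => mul_mem (hcm m hm) (hH1 m)) (by
    rw [← h0]
    refine Finset.sum_congr rfl fun m _ => ?_
    rw [hH3 m, mul_assoc])
  intro m hm
  exact (mul_eq_zero.1 (h2 m hm)).resolve_right (hH2 m)

open Classical in
/-- **Sums over the classes.** -/
theorem class_sum {τ : ℝ} (hc : Core M E τ) {U : Type} (s : Finset U) (c : U → ℂ)
    (hcm : ∀ u ∈ s, c u ∈ kf E τ) (e : U → (ι →₀ ℕ))
    (h0 : ∑ u ∈ s, c u * lval M (e u) τ = 0) (a : ι →₀ ℕ) :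
    ∑ u ∈ s.filter (fun u => Sim M a (e u)), c u * lval M (e u) τ = 0 := by
  let r : Setoid (ι →₀ ℕ) :=
    { r := Sim M
      iseqv := ⟨Sim.refl M, fun h => Sim.symm M h, fun h h' => Sim.trans M h h'⟩ }
  set rep : (ι →₀ ℕ) → (ι →₀ ℕ) := fun m => (Quotient.mk r m).out with hrep
  have hrep1 : ∀ m, Sim M (rep m) m := fun m => Quotient.mk_out (s := r) m
  have hrep2 : ∀ m m', Sim M m m' → rep m = rep m' := by
    intro m m' h
    rw [hrep]
    simp only
    have : Quotient.mk r m = Quotient.mk r m' := Quotient.sound h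
    rw [this]
  have hw : ∀ m, ∃ u ∈ kf E τ, lval M m τ = u * lval M (rep m) τ :=
    fun m => ratio hE (Sim.symm M (hrep1 m)) hc.1
  choose w hw1 hw2 using hw
  set T := s.image fun u => rep (e u) with hT
  have hC := core_l hE hc T (fun t ht t' ht' hne => by
      refine diff_of_not M fun hsim => hne ?_
      rw [hT, Finset.mem_image] at ht ht'
      obtain ⟨u, _, rfl⟩ := ht
      obtain ⟨u', _, rfl⟩ := ht'
      exact hrep2 _ _ (Sim.trans M (Sim.symm M (hrep1 (e u))) (Sim.trans M hsim (hrep1 (e u')))))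
    (fun t => ∑ u ∈ s with rep (e u) = t, c u * w (e u))
    (fun t _ => sum_mem fun u hu => mul_mem (hcm u (Finset.mem_filter.1 hu).1) (hw1 _)) (by
      rw [← h0, ← Finset.sum_fiberwise_of_maps_to (s := s) (t := T) (g := fun u => rep (e u))
        (fun u hu => Finset.mem_image_of_mem _ hu)]
      refine Finset.sum_congr rfl fun t _ => ?_
      rw [Finset.sum_mul]
      refine Finset.sum_congr rfl fun u hu => ?_
      rw [Finset.mem_filter] at hu
      rw [hw2 (e u), hu.2]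
      ring)
  by_cases hex : ∃ u0 ∈ s, Sim M a (e u0)
  · obtain ⟨u0, hu0, hs0⟩ := hex
    have hra : rep a = rep (e u0) := hrep2 _ _ hs0
    have h1 := hC (rep (e u0)) (Finset.mem_image_of_mem _ hu0)
    have h2 : s.filter (fun u => Sim M a (e u)) = s.filter (fun u => rep (e u) = rep (e u0)) := by
      refine Finset.filter_congr fun u _ => ?_
      constructor
      · intro h
        rw [← hra]
        exact (hrep2 _ _ h).symm
      · intro h
        have h3 : Sim M (rep a) (e u) := by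
          rw [hra, ← h]
          exact hrep1 (e u)
        exact Sim.trans M (Sim.symm M (hrep1 a)) h3
    rw [h2]
    have h3 : ∑ u ∈ s with rep (e u) = rep (e u0), c u * lval M (e u) τ =
        (∑ u ∈ s with rep (e u) = rep (e u0), c u * w (e u)) * lval M (rep (e u0)) τ := by
      rw [Finset.sum_mul]
      refine Finset.sum_congr rfl fun u hu => ?_
      rw [Finset.mem_filter] at hu
      rw [hw2 (e u), hu.2]
      ring
    rw [h3, h1, zero_mul]
  · push Not at hex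
    rw [Finset.sum_eq_zero]
    intro u hu
    rw [Finset.mem_filter] at hu
    exact absurd hu.2 (hex u hu.1)

end

end Pool.Agent.K6.H96.BV
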