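import Pool.Agent.K6.H96.BV.B7

/-!
# Algebraic dependence of the boundary values and relations between the Euler products
-/

set_option autoImplicit false

namespace Pool.Agent.K6.H96.BV

open Complex Filter Topology
open Pool.Agent.TH345.ET (ep tendsto_ep)

section
variable {ι : Type} (M : ι → Motive)

/-- a power of the Euler product of `M k` is a quotient of products of the others, apart from finitely
many Euler factors -/
def Rel (S : Set ι) (k : ι) : Prop :=
  ∃ n : ℕ, 1 ≤ n ∧ ∃ a b : ι →₀ ℕ, (a.support : Set ι) ⊆ S ∧ (b.support : Set ι) ⊆ S ∧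
    ∀ᶠ p in cofinite, (M k).poly p ^ n * mpoly M a p = mpoly M b p

lemma rel_of_lt {S : Set ι} {k : ι} {i i' : ℕ} {m m' : ι →₀ ℕ} (hm : (m.support : Set ι) ⊆ S)
    (hm' : (m'.support : Set ι) ⊆ S) (hlt : i < i')
    (h : Sim M (m + Finsupp.single k i) (m' + Finsupp.single k i')) : Rel M S k := by
  refine ⟨i' - i, by omega, m', m, hm', hm, ?_⟩
  filter_upwards [h] with p hp
  rw [mpoly_add, mpoly_add, mpoly_single, mpoly_single] at hp
  have h1 : (M k).poly p ^ i' = (M k).poly p ^ (i' - i) * (M k).poly p ^ i := by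
    rw [← pow_add, Nat.sub_add_cancel hlt.le]
  rw [h1] at hp
  have h2 : (M k).poly p ^ i ≠ 0 := pow_ne_zero _ ((M k).poly_ne p)
  refine mul_right_cancel₀ h2 ?_
  rw [hp]
  ring

lemma eq_of_no_rel {S : Set ι} {k : ι} (hno : ¬ Rel M S k) {i i' : ℕ} {m m' : ι →₀ ℕ}
    (hm : (m.support : Set ι) ⊆ S) (hm' : (m'.support : Set ι) ⊆ S)
    (h : Sim M (m + Finsupp.single k i) (m' + Finsupp.single k i')) : i = i' := by
  rcases lt_trichotomy i i' with h1 | h1 | h1
  · exact absurd (rel_of_lt M hm hm' h1 h) hno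
  · exact h1
  · exact absurd (rel_of_lt M hm' hm h1 (Sim.symm M h)) hno

/-- the relation of similarity as an equivalence relation -/
def simSetoid : Setoid (ι →₀ ℕ) where
  r := Sim M
  iseqv := ⟨Sim.refl M, fun h => Sim.symm M h, fun h h' => Sim.trans M h h'⟩

/-- a representative -/
noncomputable def rep (m : ι →₀ ℕ) : ι →₀ ℕ := (Quotient.mk (simSetoid M) m).out

lemma rep_sim (m : ι →₀ ℕ) : Sim M (rep M m) m := Quotient.mk_out (s := simSetoid M) m

lemma rep_eq {m m' : ι →₀ ℕ} (h : Sim M m m') : rep M m = rep M m' := by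
  unfold rep
  have : Quotient.mk (simSetoid M) m = Quotient.mk (simSetoid M) m' := Quotient.sound h
  rw [this]

lemma sim_of_rep {m m' : ι →₀ ℕ} (h : rep M m = rep M m') : Sim M m m' :=
  Sim.trans M (Sim.symm M (rep_sim M m)) (h ▸ rep_sim M m')

variable {M} {E : Set ℂ}

lemma aeval_eq {τ : ℝ} (q : MvPolynomial ι (kf E τ)) :
    MvPolynomial.aeval (fun k => (M k).bval τ) q =
      ∑ m ∈ q.support, ((q.coeff m : kf E τ) : ℂ) * lval M m τ := by
  rw [MvPolynomial.aeval_def, MvPolynomial.eval₂_eq]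
  rfl

/-- elements of the ring generated by the values -/
lemma mem_ring {τ : ℝ} (hτ : τ ∉ excs M) {S : Set ι} {x : ℂ}
    (hx : x ∈ Algebra.adjoin ℚ (gens E τ ∪ {v | ∃ k ∈ S, HasBoundaryValue (M k).nL τ v})) :
    ∃ q ∈ MvPolynomial.supported (kf E τ) S, MvPolynomial.aeval (fun k => (M k).bval τ) q = x := by
  induction hx using Algebra.adjoin_induction with
  | mem x hx =>
    rcases hx with hx | ⟨k, hk, hv⟩
    · have h1 : x ∈ kf E τ := IntermediateField.subset_adjoin _ _ hx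
      refine ⟨MvPolynomial.C ⟨x, h1⟩, ?_, ?_⟩
      · exact Subalgebra.algebraMap_mem _ _
      · rw [MvPolynomial.aeval_C]
        rfl
    · refine ⟨MvPolynomial.X k, MvPolynomial.X_mem_supported.2 hk, ?_⟩
      rw [MvPolynomial.aeval_X]
      exact ((M k).hasBV fun h => hτ (Set.mem_iUnion.2 ⟨k, h⟩)).rad.unique hv.rad
  | algebraMap c =>
    have h1 : algebraMap ℚ ℂ c ∈ kf E τ := IntermediateField.algebraMap_mem _ c
    refine ⟨MvPolynomial.C ⟨_, h1⟩, Subalgebra.algebraMap_mem _ _, ?_⟩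
    rw [MvPolynomial.aeval_C]
    rfl
  | add x y _ _ hx hy =>
    obtain ⟨p, hp, rfl⟩ := hx
    obtain ⟨q, hq, rfl⟩ := hy
    exact ⟨p + q, add_mem hp hq, map_add _ _ _⟩
  | mul x y _ _ hx hy =>
    obtain ⟨p, hp, rfl⟩ := hx
    obtain ⟨q, hq, rfl⟩ := hy
    exact ⟨p * q, mul_mem hp hq, map_mul _ _ _⟩

lemma valueField_eq (S : Set ι) (τ : ℝ) : valueField M E S τ =
    IntermediateField.adjoin ℚ (gens E τ ∪ {v | ∃ k ∈ S, HasBoundaryValue (M k).nL τ v}) := rfl

open Classical in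
/-- **Algebraic dependence gives a relation between the Euler products.** -/
theorem rel_of_alg (hE : Coeffs M E) {τ : ℝ} (hc : Core M E τ) {S : Set ι} {k : ι}
    (h : IsAlgebraic (valueField M E S τ) ((M k).bval τ)) : Rel M S k := by
  by_contra hno
  rw [valueField_eq] at h
  set G : Set ℂ := gens E τ ∪ {v | ∃ k ∈ S, HasBoundaryValue (M k).nL τ v} with hG
  have h1 : IsAlgebraic (Algebra.adjoin ℚ G) ((M k).bval τ) := by
    open IntermediateField.algebraAdjoinAdjoin in
    exact (IsFractionRing.isAlgebraic_iff (Algebra.adjoin ℚ G)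
      (IntermediateField.adjoin ℚ G) ℂ).2 h
  obtain ⟨P, hP, hPx⟩ := h1
  have hq : ∀ i : ℕ, ∃ q ∈ MvPolynomial.supported (kf E τ) S,
      MvPolynomial.aeval (fun k => (M k).bval τ) q = ((P.coeff i : Algebra.adjoin ℚ G) : ℂ) :=
    fun i => mem_ring hc.1 (P.coeff i).2
  choose q hq1 hq2 using hq
  set v : ℂ := (M k).bval τ with hv
  have hv0 : v ≠ 0 := (M k).bval_ne fun h => hc.1 (Set.mem_iUnion.2 ⟨k, h⟩)
  set s : Finset (Σ _ : ℕ, (ι →₀ ℕ)) :=
    (Finset.range (P.natDegree + 1)).sigma fun i => (q i).support with hs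
  set c : (Σ _ : ℕ, (ι →₀ ℕ)) → ℂ := fun u => (((q u.1).coeff u.2 : kf E τ) : ℂ) with hcdef
  set e : (Σ _ : ℕ, (ι →₀ ℕ)) → (ι →₀ ℕ) := fun u => u.2 + Finsupp.single k u.1 with he
  have hsupp : ∀ u ∈ s, ((u.2.support : Finset ι) : Set ι) ⊆ S := by
    intro u hu j hj
    rw [hs, Finset.mem_sigma] at hu
    have h2 := MvPolynomial.mem_supported.1 (hq1 u.1)
    exact h2 (Finset.mem_coe.2 ((MvPolynomial.mem_vars_iff_mem_support _).2 ⟨u.2, hu.2, hj⟩))
  have hterm : ∀ u, c u * lval M (e u) τ = c u * lval M u.2 τ * v ^ u.1 := by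
    intro u
    rw [he]
    simp only
    rw [lval_add, lval_single]
    ring
  have hpart : ∀ i ∈ Finset.range (P.natDegree + 1),
      ∑ m ∈ (q i).support, c ⟨i, m⟩ * lval M (e ⟨i, m⟩) τ =
        ((P.coeff i : Algebra.adjoin ℚ G) : ℂ) * v ^ i := by
    intro i _
    rw [← hq2 i, aeval_eq, Finset.sum_mul]
    exact Finset.sum_congr rfl fun m _ => hterm ⟨i, m⟩
  have hzero : ∑ u ∈ s, c u * lval M (e u) τ = 0 := by
    rw [hs, Finset.sum_sigma, Finset.sum_congr rfl hpart]
    rw [Polynomial.aeval_eq_sum_range] at hPx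
    rw [← hPx]
    refine Finset.sum_congr rfl fun i _ => ?_
    rw [Algebra.smul_def]
    rfl
  have hcls := class_sum hE hc s c (fun u _ => ((q u.1).coeff u.2 : kf E τ).2) e hzero
  have hi : ∀ i ∈ Finset.range (P.natDegree + 1),
      ∑ u ∈ s.filter (fun u => u.1 = i), c u * lval M (e u) τ = 0 := by
    intro i _
    rw [← Finset.sum_fiberwise_of_maps_to (s := s.filter fun u => u.1 = i)
      (t := (s.filter fun u => u.1 = i).image fun u => rep M (e u)) (g := fun u => rep M (e u))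
      (fun u hu => Finset.mem_image_of_mem _ hu)]
    refine Finset.sum_eq_zero fun t ht => ?_
    rw [Finset.mem_image] at ht
    obtain ⟨u0, hu0, rfl⟩ := ht
    rw [Finset.mem_filter] at hu0
    rw [← hcls (e u0)]
    refine Finset.sum_congr ?_ fun _ _ => rfl
    ext u
    rw [Finset.mem_filter, Finset.mem_filter, Finset.mem_filter]
    constructor
    · rintro ⟨⟨h2, _⟩, h3⟩
      exact ⟨h2, sim_of_rep M h3.symm⟩
    · rintro ⟨h2, h3⟩
      have h4 : u0.1 = u.1 := eq_of_no_rel M hno (hsupp u0 hu0.1) (hsupp u h2) h3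
      exact ⟨⟨h2, by rw [← h4, hu0.2]⟩, (rep_eq M h3).symm⟩
  apply hP
  ext i
  rw [Polynomial.coeff_zero]
  by_cases hin : i ∈ Finset.range (P.natDegree + 1)
  · have h2 := hi i hin
    have h3 : ∑ u ∈ s.filter (fun u => u.1 = i), c u * lval M (e u) τ =
        ∑ m ∈ (q i).support, c ⟨i, m⟩ * lval M (e ⟨i, m⟩) τ := by
      symm
      refine Finset.sum_bij (fun m _ => (⟨i, m⟩ : Σ _ : ℕ, (ι →₀ ℕ))) ?_ ?_ ?_ ?_
      · intro m hm
        rw [Finset.mem_filter, hs, Finset.mem_sigma]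
        exact ⟨⟨hin, hm⟩, rfl⟩
      · intro m _ m' _ h
        simpa using h
      · rintro ⟨j, m⟩ hu
        rw [Finset.mem_filter, hs, Finset.mem_sigma] at hu
        obtain ⟨⟨_, h4⟩, h5⟩ := hu
        simp only at h5 h4
        subst h5
        exact ⟨m, h4, rfl⟩
      · intro m _
        rfl
    rw [h3, hpart i hin] at h2
    have h4 := (mul_eq_zero.1 h2).resolve_right (pow_ne_zero _ hv0)
    have h5 : P.coeff i = 0 := Subtype.ext h4
    rw [h5]
  · rw [Finset.mem_range] at hin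
    rw [Polynomial.coeff_eq_zero_of_natDegree_lt (by omega)]

/-- the converse -/
theorem alg_of_rel (hE : Coeffs M E) {τ : ℝ} (hτ : τ ∉ excs M) {S : Set ι} {k : ι}
    (h : Rel M S k) : IsAlgebraic (valueField M E S τ) ((M k).bval τ) := by
  obtain ⟨n, hn, a, b, ha, hb, hrel⟩ := h
  have hsim : Sim M (a + Finsupp.single k n) b := by
    filter_upwards [hrel] with p hp
    rw [mpoly_add, mpoly_single, ← hp]
    ring
  obtain ⟨u, hu, h1⟩ := ratio hE hsim hτ
  rw [lval_add, lval_single] at h1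
  have hle : kf E τ ≤ valueField M E S τ := by
    rw [valueField_eq]
    exact IntermediateField.adjoin.mono _ _ _ Set.subset_union_left
  have hmem : ∀ m : ι →₀ ℕ, (m.support : Set ι) ⊆ S → lval M m τ ∈ valueField M E S τ := by
    intro m hm
    unfold lval Finsupp.prod
    refine prod_mem fun j hj => pow_mem ?_ _
    exact IntermediateField.subset_adjoin _ _ (Or.inr ⟨j, hm hj,
      (M j).hasBV fun h => hτ (Set.mem_iUnion.2 ⟨j, h⟩)⟩)
  have h2 : (M k).bval τ ^ n = u * lval M b τ / lval M a τ := by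
    rw [← h1, mul_div_cancel_left₀ _ (lval_ne M hτ a)]
  have h3 : (M k).bval τ ^ n ∈ valueField M E S τ := by
    rw [h2]
    exact div_mem (mul_mem (hle hu) (hmem b hb)) (hmem a ha)
  refine IsAlgebraic.of_pow (n := n) (by omega) ?_
  exact isAlgebraic_algebraMap (⟨_, h3⟩ : valueField M E S τ)

end

end Pool.Agent.K6.H96.BV
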