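import Pool.Agent.K6.H96.BV.B8

/-!
# Relations between Euler products and continuation to the plane
-/

set_option autoImplicit false

namespace Pool.Agent.K6.H96.BV

open Complex Filter Topology
open Pool.Agent.TH345.ET (ep tendsto_ep)
open Pool.Agent.TH339.MP (FF)

lemma ev_iff {P : ℂ → Prop} : (∀ᶠ s in comap Complex.re atTop, P s) ↔
    ∃ σ : ℝ, ∀ s : ℂ, σ < s.re → P s := by
  rw [eventually_comap, eventually_atTop]
  constructor
  · rintro ⟨σ, h⟩
    exact ⟨σ, fun s hs => h s.re hs.le s rfl⟩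
  · rintro ⟨σ, h⟩
    exact ⟨σ + 1, fun b hb a ha => h a (by rw [ha]; linarith)⟩

lemma Motive.lf_ne_large (M : Motive) (p : Nat.Primes) :
    ∀ᶠ s in comap Complex.re atTop, M.lf p s ≠ 0 := by
  classical
  set R : Set ℂ := (((M.poly p).roots.toFinset.erase 0 : Finset ℂ) : Set ℂ) with hR
  have hcl : IsClosed R := (Finset.finite_toSet _).isClosed
  have h0 : (0 : ℂ) ∈ Rᶜ := by
    intro h
    rw [hR, Finset.mem_coe, Finset.mem_erase] at h
    exact h.1 rfl
  obtain ⟨ε, hε, hball⟩ := Metric.isOpen_iff.1 hcl.isOpen_compl 0 h0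
  obtain ⟨N, hN⟩ := exists_pow_lt_of_lt_one hε (show (1 / 2 : ℝ) < 1 by norm_num)
  rw [ev_iff]
  refine ⟨N, fun s hs h => ?_⟩
  rw [← M.poly_eval] at h
  set z : ℂ := ((p : ℕ) : ℂ) ^ (-s) with hz
  have hz0 : z ≠ 0 := Motive.cpow_ne p _
  have hp2 : (2 : ℝ) ≤ ((p : ℕ) : ℝ) := by exact_mod_cast p.2.two_le
  have hnorm : ‖z‖ < ε := by
    rw [hz, Complex.norm_natCast_cpow_of_pos p.2.pos, Complex.neg_re]
    calc ((p : ℕ) : ℝ) ^ (-s.re) ≤ ((p : ℕ) : ℝ) ^ (-(N : ℝ)) :=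
          Real.rpow_le_rpow_of_exponent_le (by linarith) (by linarith)
      _ = (((p : ℕ) : ℝ) ^ N)⁻¹ := by
          rw [Real.rpow_neg (by positivity), Real.rpow_natCast]
      _ ≤ (2 ^ N)⁻¹ := inv_anti₀ (by positivity) (pow_le_pow_left₀ (by norm_num) hp2 N)
      _ = (1 / 2) ^ N := by
          rw [one_div, inv_pow]
      _ < ε := hN
  have hmem : z ∈ Rᶜ := hball (by rw [Metric.mem_ball, dist_zero_right]; exact hnorm)
  apply hmem
  rw [hR, Finset.mem_coe, Finset.mem_erase]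
  refine ⟨hz0, ?_⟩
  rw [Multiset.mem_toFinset, Polynomial.mem_roots (M.poly_ne p)]
  exact h

lemma ev_one : ∀ᶠ s in comap Complex.re atTop, 1 < s.re := ev_iff.2 ⟨1, fun _ h => h⟩

lemma Motive.nL_ne_large (M : Motive) : ∀ᶠ s in comap Complex.re atTop, M.nL s ≠ 0 := by
  have h1 : ∀ᶠ s in comap Complex.re atTop, ∀ p ∈ M.badP, M.lf p s ≠ 0 := by
    rw [eventually_all_finset]
    intro p _
    exact M.lf_ne_large p
  filter_upwards [h1, ev_one] with s hs hs1
  rw [M.nL_eq hs1]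
  refine mul_ne_zero ?_ (Complex.exp_ne_zero _)
  unfold Motive.hh
  exact Finset.prod_ne_zero_iff.2 fun p hp => inv_ne_zero (hs p hp)

section
variable {ι : Type} {M : ι → Motive}

lemma mlf_ne_large (m : ι →₀ ℕ) (p : Nat.Primes) :
    ∀ᶠ s in comap Complex.re atTop, mlf M m p s ≠ 0 := by
  have h1 : ∀ᶠ s in comap Complex.re atTop, ∀ k ∈ m.support, (M k).lf p s ≠ 0 := by
    rw [eventually_all_finset]
    intro k _
    exact (M k).lf_ne_large p
  filter_upwards [h1] with s hs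
  rw [mlf_eq]
  exact Finset.prod_ne_zero_iff.2 fun k hk => pow_ne_zero _ (hs k hk)

lemma Lmon_add (a b : ι →₀ ℕ) (s : ℂ) : Lmon M (a + b) s = Lmon M a s * Lmon M b s := by
  classical
  unfold Lmon
  exact Finsupp.prod_add_index' (fun _ => pow_zero _) (fun _ _ _ => pow_add _ _ _)

lemma Lmon_single (k : ι) (n : ℕ) (s : ℂ) : Lmon M (Finsupp.single k n) s = (M k).nL s ^ n := by
  unfold Lmon
  exact Finsupp.prod_single_index (pow_zero _)

/-- **Continuation to the plane.** -/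
theorem ext_of_rel {S : Set ι} {k : ι} (h : Rel M S k) (hS : ∀ j ∈ S, ExtendsToPlane (M j).nL) :
    ∃ n : ℕ, 1 ≤ n ∧ ExtendsToPlane fun s => (M k).nL s ^ n := by
  classical
  obtain ⟨n, hn, a, b, ha, hb, hrel⟩ := h
  refine ⟨n, hn, ?_⟩
  have hsim : Sim M (a + Finsupp.single k n) b := by
    filter_upwards [hrel] with p hp
    rw [mpoly_add, mpoly_single, ← hp]
    ring
  set c := a + Finsupp.single k n with hc
  obtain ⟨T, hT⟩ := Lmon_compare M hsim
  have hg : ∀ j : ι, ∃ g : ℂ → ℂ, j ∈ S → (∀ z, MeromorphicAt g z) ∧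
      ∀ᶠ s in comap Complex.re atTop, g s = (M j).nL s := by
    intro j
    by_cases hj : j ∈ S
    · obtain ⟨g, h1, h2⟩ := hS j hj
      exact ⟨g, fun _ => ⟨h1, ev_iff.2 h2⟩⟩
    · exact ⟨0, fun h => absurd h hj⟩
  choose g hg using hg
  have hmer : ∀ m : ι →₀ ℕ, (m.support : Set ι) ⊆ S → ∀ z,
      MeromorphicAt (fun s => ∏ j ∈ m.support, g j s ^ (m j)) z := by
    intro m hm z
    exact MeromorphicAt.fun_prod fun j hj => ((hg j (hm hj)).1 z).pow _
  have hev : ∀ m : ι →₀ ℕ, (m.support : Set ι) ⊆ S → ∀ᶠ s in comap Complex.re atTop,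
      ∏ j ∈ m.support, g j s ^ (m j) = Lmon M m s := by
    intro m hm
    have h1 : ∀ᶠ s in comap Complex.re atTop, ∀ j ∈ m.support, g j s = (M j).nL s := by
      rw [eventually_all_finset]
      intro j hj
      exact (hg j (hm hj)).2
    filter_upwards [h1] with s hs
    unfold Lmon Finsupp.prod
    exact Finset.prod_congr rfl fun j hj => by rw [hs j hj]
  refine ⟨fun s => (∏ j ∈ b.support, g j s ^ (b j)) * (∏ p ∈ T, (mlf M c p s)⁻¹) *
    (∏ p ∈ T, mlf M b p s) * (∏ j ∈ a.support, g j s ^ (a j))⁻¹, fun z => ?_, ev_iff.1 ?_⟩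
  · refine (((hmer b hb z).fun_mul ?_).fun_mul ?_).fun_mul (hmer a ha z).fun_inv
    · exact MeromorphicAt.fun_prod fun p _ => (mlf_analytic M c p z).meromorphicAt.fun_inv
    · exact MeromorphicAt.fun_prod fun p _ => (mlf_analytic M b p z).meromorphicAt
  · have h1 : ∀ᶠ s in comap Complex.re atTop, ∀ p ∈ T, mlf M c p s ≠ 0 ∧ mlf M b p s ≠ 0 := by
      rw [eventually_all_finset]
      intro p _
      exact (mlf_ne_large c p).and (mlf_ne_large b p)
    have h2 : ∀ᶠ s in comap Complex.re atTop, ∀ j ∈ a.support, (M j).nL s ≠ 0 := by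
      rw [eventually_all_finset]
      intro j _
      exact (M j).nL_ne_large
    filter_upwards [hev a ha, hev b hb, ev_one, h1, h2] with s e1 e2 e3 e4 e5
    rw [e1, e2, hT s e3 fun p hp => (e4 p hp).1, hc, Lmon_add, Lmon_single]
    have h3 : (∏ p ∈ T, (mlf M b p s)⁻¹) * ∏ p ∈ T, mlf M b p s = 1 := by
      rw [← Finset.prod_mul_distrib]
      exact Finset.prod_eq_one fun p hp => inv_mul_cancel₀ (e4 p hp).2
    have h4 : Lmon M a s ≠ 0 := by
      unfold Lmon Finsupp.prod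
      exact Finset.prod_ne_zero_iff.2 fun j hj => pow_ne_zero _ (e5 j hj)
    calc Lmon M a s * (M k).nL s ^ n * (∏ p ∈ T, (mlf M b p s)⁻¹) * (∏ p ∈ T, mlf M b p s) *
        (Lmon M a s)⁻¹ = (M k).nL s ^ n * ((∏ p ∈ T, (mlf M b p s)⁻¹) *
          ∏ p ∈ T, mlf M b p s) * (Lmon M a s * (Lmon M a s)⁻¹) := by ring
      _ = (M k).nL s ^ n := by rw [h3, mul_inv_cancel₀ h4, mul_one, mul_one]

end

/-- **The main theorem.** -/
theorem ae_relations {ι : Type} [Countable ι] (M : ι → Motive) {E : Set ℂ} (hE : E.Countable)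
    (hM : ∀ (k : ι) (p : Nat.Primes) (n : ℕ), ((M k).poly p).coeff n ∈ E) :
    ∀ᵐ τ : ℝ, ∀ (k : ι) (S : Set ι), ∃ v : ℂ, v ≠ 0 ∧ HasBoundaryValue (M k).nL τ v ∧
      (IsAlgebraic (valueField M E S τ) v ↔ Rel M S k) := by
  filter_upwards [ae_core M hE] with τ hτ k S
  have hk : τ ∉ (M k).exc := fun h => hτ.1 (Set.mem_iUnion.2 ⟨k, h⟩)
  exact ⟨(M k).bval τ, (M k).bval_ne hk, (M k).hasBV hk, rel_of_alg hM hτ, alg_of_rel hM hτ.1⟩

end Pool.Agent.K6.H96.BV
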