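import Mathlib

/-!
# The `L`-functions of motives over `ℚ` on the edge of the half-plane of convergence

The definitions for the statements about boundary values.
-/

set_option autoImplicit false

namespace Pool.Agent.K6.H96.BV

open Filter Topology

/-- The data of the `L`-function of a motive over `ℚ`, pure of weight `weight` (or mixed of weights at
most `weight`), with coefficients in `ℂ`: the rank, the eigenvalues `frob p` of the geometric Frobenius
at `p` and the denominator `euler p` of the Euler factor at `p`.  At all but finitely many primes the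
eigenvalues have absolute value at most `p ^ (weight / 2)` (Deligne) and determine the Euler factor.  At
the other primes the Euler factor is the inverse of an arbitrary nonzero polynomial in `p ^ (-s)`. -/
structure Motive where
  /-- the weight -/
  weight : ℤ
  /-- the rank -/
  rank : ℕ
  /-- the eigenvalues of the Frobenius -/
  frob : Nat.Primes → Fin rank → ℂ
  /-- the inverse of the Euler factor, a polynomial in `p ^ (-s)` -/
  euler : Nat.Primes → Polynomial ℂ
  /-- almost all primes are good -/
  good : ∀ᶠ p : Nat.Primes in cofinite,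
    (∀ j, ‖frob p j‖ ≤ ((p : ℕ) : ℝ) ^ ((weight : ℝ) / 2)) ∧
      euler p = ∏ j, (1 - Polynomial.C (frob p j) * Polynomial.X)
  /-- the inverses of the Euler factors are not zero -/
  euler_ne : ∀ p, euler p ≠ 0

/-- The `L`-function as the Euler product, `Re s > weight / 2 + 1`. -/
noncomputable def Motive.L (M : Motive) (s : ℂ) : ℂ :=
  ∏' p : Nat.Primes, ((M.euler p).eval (((p : ℕ) : ℂ) ^ (-s)))⁻¹

/-- The `L`-function in the normalisation with `Re s > 1` as the half-plane of convergence. -/
noncomputable def Motive.nL (M : Motive) (s : ℂ) : ℂ := M.L (s + (M.weight : ℂ) / 2)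

/-- The point `1 + iτ` of the edge. -/
noncomputable def edge (τ : ℝ) : ℂ := 1 + τ * Complex.I

/-- The angle `|s - (1 + iτ)| ≤ C (Re s - 1)` in the half-plane `Re s > 1`. -/
def angle (τ C : ℝ) : Set ℂ := {s : ℂ | 1 < s.re ∧ ‖s - edge τ‖ ≤ C * (s.re - 1)}

/-- `f` has the boundary value `v` at `1 + iτ`: it tends to `v` in every angle. -/
def HasBoundaryValue (f : ℂ → ℂ) (τ : ℝ) (v : ℂ) : Prop :=
  ∀ C : ℝ, Tendsto f (𝓝[angle τ C] (edge τ)) (𝓝 v)

/-- `f` continues holomorphically to a neighbourhood of `1 + iτ`: near this point it agrees, for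
`Re s > 1`, with a function analytic there. -/
def Continues (f : ℂ → ℂ) (τ : ℝ) : Prop :=
  ∃ φ : ℂ → ℂ, AnalyticAt ℂ φ (edge τ) ∧ ∀ᶠ s in 𝓝 (edge τ), 1 < s.re → f s = φ s

/-- The ring of functions generated over `ℚ` by the functions in `A` which are analytic at `1 + iτ` and
by the normalised `L`-functions of the motives `M k` and their inverses. -/
noncomputable def ringAt {ι : Type} (M : ι → Motive) (A : Set (ℂ → ℂ)) (τ : ℝ) :
    Subalgebra ℚ (ℂ → ℂ) :=
  Algebra.adjoin ℚ ({f | f ∈ A ∧ AnalyticAt ℂ f (edge τ)} ∪
    {f | ∃ k, f = (M k).nL ∨ f = fun s => ((M k).nL s)⁻¹})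

/-- The field generated over `ℚ` by the boundary values at `1 + iτ` of those functions in the ring
`ringAt M A τ` which continue holomorphically to a neighbourhood of `1 + iτ`. -/
noncomputable def fieldAt {ι : Type} (M : ι → Motive) (A : Set (ℂ → ℂ)) (τ : ℝ) :
    IntermediateField ℚ ℂ :=
  IntermediateField.adjoin ℚ {v : ℂ | ∃ f ∈ ringAt M A τ, Continues f τ ∧ HasBoundaryValue f τ v}

end Pool.Agent.K6.H96.BV
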