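import Pool.Agent.TH339.MP.X6
import Pool.Agent.TH345.ET.U

/-!
# Functions of locally bounded characteristic at a point of the edge
-/

set_option autoImplicit false

namespace Pool.Agent.K6.H96.BV

open Complex Set Filter Topology MeasureTheory
open Pool.Agent.TH339.MP (rect isOpen_rect convex_rect UU pos_A pt continuous_pt pt_mem cont_UU
  UU_one_nonneg local_uniqueness PP FF bl ap hardy continuous_norm_exp differentiableOn_FF UU_dom
  M_nonneg)
open Pool.Agent.TH345.ET (ep)

/-- `f` is locally of bounded characteristic at `1 + iτ`, with radius and bound -/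
def NVr (f : ℂ → ℂ) (τ r C : ℝ) : Prop :=
  0 < r ∧ DifferentiableOn ℂ (fun z => f (ep τ + z)) (rect r) ∧
    ∀ x, 0 < x → x < r → ∫ t in -(r / 2)..(r / 2), UU 1 (f (ep τ + pt (x, t))) ≤ C

/-- `f` is locally of bounded characteristic at `1 + iτ` -/
def NV (f : ℂ → ℂ) (τ : ℝ) : Prop := ∃ r C : ℝ, NVr f τ r C

section
variable {f g : ℂ → ℂ} {τ r C : ℝ}

lemma cont_int (hf : DifferentiableOn ℂ (fun z => f (ep τ + z)) (rect r)) {x : ℝ} (hx : 0 < x)
    (hxr : x < r) : ContinuousOn (fun t : ℝ => UU 1 (f (ep τ + pt (x, t)))) (Icc (-(r / 2)) (r / 2)) := by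
  have h1 : ContinuousOn (fun t : ℝ => pt (x, t)) (Icc (-(r / 2)) (r / 2)) :=
    (continuous_pt.comp (by fun_prop)).continuousOn
  have h2 := (cont_UU one_pos hf.continuousOn).comp h1 (fun t ht =>
    pt_mem (r := r) (ρ := r / 2) hx hxr (abs_le.2 ht) (by linarith))
  exact h2

lemma rect_mono {r r' : ℝ} (h : r' ≤ r) : rect r' ⊆ rect r := fun _ hz =>
  ⟨hz.1, hz.2.1.trans_le h, hz.2.2.trans_le h⟩

lemma NVr.mono (h : NVr f τ r C) {r' : ℝ} (hr' : 0 < r') (hle : r' ≤ r) : NVr f τ r' C := by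
  obtain ⟨hr, hd, hC⟩ := h
  refine ⟨hr', hd.mono (rect_mono hle), fun x hx hxr => le_trans ?_ (hC x hx (hxr.trans_le hle))⟩
  refine intervalIntegral.integral_mono_interval (by linarith) (by linarith) (by linarith)
    (Eventually.of_forall fun t => UU_one_nonneg _) ?_
  refine ContinuousOn.intervalIntegrable ?_
  rw [uIcc_of_le (by linarith)]
  exact cont_int hd hx (hxr.trans_le hle)

lemma UU_add_le (w v : ℂ) : UU 1 (w + v) ≤ Real.log 2 + UU 1 w + UU 1 v := by
  have h1 := norm_nonneg w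
  have h2 := norm_nonneg v
  have h3 : ‖w + v‖ ^ 2 + 1 ^ 2 ≤ 2 ^ 2 * ((‖w‖ ^ 2 + 1 ^ 2) * (‖v‖ ^ 2 + 1 ^ 2)) := by
    have h4 : ‖w + v‖ ^ 2 ≤ (‖w‖ + ‖v‖) ^ 2 := pow_le_pow_left₀ (norm_nonneg _) (norm_add_le _ _) 2
    nlinarith [sq_nonneg (‖w‖ - ‖v‖), sq_nonneg (‖w‖ * ‖v‖)]
  have h5 := Real.log_le_log (pos_A one_pos (w + v)) h3
  rw [Real.log_mul (by norm_num) (mul_pos (pos_A one_pos w) (pos_A one_pos v)).ne',
    Real.log_mul (pos_A one_pos w).ne' (pos_A one_pos v).ne', Real.log_pow] at h5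
  have h6 := mul_le_mul_of_nonneg_left h5 (by norm_num : (0 : ℝ) ≤ 1 / 2)
  unfold UU
  refine h6.trans (le_of_eq ?_)
  push_cast
  ring

lemma UU_mul_le (w v : ℂ) : UU 1 (w * v) ≤ UU 1 w + UU 1 v := by
  have h3 : ‖w * v‖ ^ 2 + 1 ^ 2 ≤ (‖w‖ ^ 2 + 1 ^ 2) * (‖v‖ ^ 2 + 1 ^ 2) := by
    rw [norm_mul]
    nlinarith [sq_nonneg ‖w‖, sq_nonneg ‖v‖]
  have h5 := Real.log_le_log (pos_A one_pos (w * v)) h3
  rw [Real.log_mul (pos_A one_pos w).ne' (pos_A one_pos v).ne'] at h5
  have h6 := mul_le_mul_of_nonneg_left h5 (by norm_num : (0 : ℝ) ≤ 1 / 2)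
  unfold UU
  refine h6.trans (le_of_eq ?_)
  ring

lemma NV.add (hf : NV f τ) (hg : NV g τ) : NV (fun s => f s + g s) τ := by
  obtain ⟨r1, C1, h1⟩ := hf
  obtain ⟨r2, C2, h2⟩ := hg
  have hr : 0 < min r1 r2 := lt_min h1.1 h2.1
  have h1' := h1.mono hr (min_le_left _ _)
  have h2' := h2.mono hr (min_le_right _ _)
  set r := min r1 r2
  refine ⟨r, Real.log 2 * r + C1 + C2, hr, h1'.2.1.fun_add h2'.2.1, fun x hx hxr => ?_⟩
  have c1 := cont_int h1'.2.1 hx hxr
  have c2 := cont_int h2'.2.1 hx hxr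
  have c3 := cont_int (f := fun s => f s + g s) (h1'.2.1.fun_add h2'.2.1) hx hxr
  have hle : -(r / 2) ≤ r / 2 := by linarith
  rw [← uIcc_of_le hle] at c1 c2 c3
  have i1 := c1.intervalIntegrable (μ := volume)
  have i2 := c2.intervalIntegrable (μ := volume)
  have i0 : IntervalIntegrable (fun _ : ℝ => Real.log 2) volume (-(r / 2)) (r / 2) :=
    intervalIntegrable_const
  calc ∫ t in -(r / 2)..(r / 2), UU 1 (f (ep τ + pt (x, t)) + g (ep τ + pt (x, t))) ≤
      ∫ t in -(r / 2)..(r / 2), (Real.log 2 + UU 1 (f (ep τ + pt (x, t))) +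
        UU 1 (g (ep τ + pt (x, t)))) :=
        intervalIntegral.integral_mono_on hle c3.intervalIntegrable ((i0.add i1).add i2)
          fun t _ => UU_add_le _ _
    _ = (∫ _t in -(r / 2)..(r / 2), Real.log 2) + (∫ t in -(r / 2)..(r / 2),
          UU 1 (f (ep τ + pt (x, t)))) + ∫ t in -(r / 2)..(r / 2), UU 1 (g (ep τ + pt (x, t))) := by
        rw [intervalIntegral.integral_add (i0.add i1) i2, intervalIntegral.integral_add i0 i1]
    _ ≤ Real.log 2 * r + C1 + C2 := by
        have e1 : (∫ _t in -(r / 2)..(r / 2), Real.log 2) = Real.log 2 * r := by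
          rw [intervalIntegral.integral_const, smul_eq_mul]
          ring
        rw [e1]
        exact add_le_add (add_le_add le_rfl (h1'.2.2 x hx hxr)) (h2'.2.2 x hx hxr)

lemma NV.mul (hf : NV f τ) (hg : NV g τ) : NV (fun s => f s * g s) τ := by
  obtain ⟨r1, C1, h1⟩ := hf
  obtain ⟨r2, C2, h2⟩ := hg
  have hr : 0 < min r1 r2 := lt_min h1.1 h2.1
  have h1' := h1.mono hr (min_le_left _ _)
  have h2' := h2.mono hr (min_le_right _ _)
  set r := min r1 r2
  refine ⟨r, C1 + C2, hr, h1'.2.1.fun_mul h2'.2.1, fun x hx hxr => ?_⟩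
  have c1 := cont_int h1'.2.1 hx hxr
  have c2 := cont_int h2'.2.1 hx hxr
  have c3 := cont_int (f := fun s => f s * g s) (h1'.2.1.fun_mul h2'.2.1) hx hxr
  have hle : -(r / 2) ≤ r / 2 := by linarith
  rw [← uIcc_of_le hle] at c1 c2 c3
  have i1 := c1.intervalIntegrable (μ := volume)
  have i2 := c2.intervalIntegrable (μ := volume)
  calc ∫ t in -(r / 2)..(r / 2), UU 1 (f (ep τ + pt (x, t)) * g (ep τ + pt (x, t))) ≤
      ∫ t in -(r / 2)..(r / 2), (UU 1 (f (ep τ + pt (x, t))) +
        UU 1 (g (ep τ + pt (x, t)))) :=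
        intervalIntegral.integral_mono_on hle c3.intervalIntegrable (i1.add i2)
          fun t _ => UU_mul_le _ _
    _ = (∫ t in -(r / 2)..(r / 2),
          UU 1 (f (ep τ + pt (x, t)))) + ∫ t in -(r / 2)..(r / 2), UU 1 (g (ep τ + pt (x, t))) := by
        rw [intervalIntegral.integral_add i1 i2]
    _ ≤ C1 + C2 := add_le_add (h1'.2.2 x hx hxr) (h2'.2.2 x hx hxr)

lemma ep_re (τ : ℝ) : (ep τ).re = 1 := by simp [ep]

lemma rect_norm {z : ℂ} (hz : z ∈ rect r) : ‖z‖ < 2 * r := by
  have h1 := Complex.norm_le_abs_re_add_abs_im z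
  have h2 : |z.re| < r := by rw [abs_of_pos hz.1]; exact hz.2.1
  linarith [hz.2.2]

/-- a bound for `f` near the point gives the bound for the characteristic -/
lemma NV.of_analytic (hf : AnalyticAt ℂ f (ep τ)) : NV f τ := by
  obtain ⟨d, hd, hd'⟩ := hf.exists_ball_analyticOnNhd
  have hcb : IsCompact (Metric.closedBall (ep τ) (d / 2)) := isCompact_closedBall _ _
  have hsub : Metric.closedBall (ep τ) (d / 2) ⊆ Metric.ball (ep τ) d :=
    Metric.closedBall_subset_ball (by linarith)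
  obtain ⟨B, hB⟩ := hcb.exists_bound_of_continuousOn (hd'.continuousOn.mono hsub)
  set r : ℝ := d / 4 with hr
  have hr0 : 0 < r := by positivity
  have hin : ∀ z ∈ rect r, ep τ + z ∈ Metric.closedBall (ep τ) (d / 2) := by
    intro z hz
    rw [Metric.mem_closedBall, dist_eq_norm, add_sub_cancel_left]
    have := rect_norm hz
    linarith
  have hfd : DifferentiableOn ℂ (fun z => f (ep τ + z)) (rect r) := by
    have ha : DifferentiableOn ℂ (fun z => ep τ + z) (rect r) :=
      (differentiable_id.const_add _).differentiableOn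
    exact hd'.differentiableOn.comp ha fun z hz => hsub (hin z hz)
  refine ⟨r, (1 / 2 * Real.log (B ^ 2 + 1 ^ 2)) * r, hr0, hfd, fun x hx hxr => ?_⟩
  have hle : -(r / 2) ≤ r / 2 := by linarith
  have c3 := cont_int hfd hx hxr
  rw [← uIcc_of_le hle] at c3
  calc ∫ t in -(r / 2)..(r / 2), UU 1 (f (ep τ + pt (x, t))) ≤
      ∫ _t in -(r / 2)..(r / 2), (1 / 2 * Real.log (B ^ 2 + 1 ^ 2)) := by
        refine intervalIntegral.integral_mono_on hle c3.intervalIntegrable
          intervalIntegrable_const fun t ht => ?_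
        unfold UU
        refine mul_le_mul_of_nonneg_left (Real.log_le_log (pos_A one_pos _) ?_) (by norm_num)
        have h1 := hB _ (hin _ (pt_mem (r := r) (ρ := r / 2) hx hxr (abs_le.2 ht) (by linarith)))
        have h2 := pow_le_pow_left₀ (norm_nonneg _) h1 2
        linarith
    _ = _ := by
        rw [intervalIntegral.integral_const, smul_eq_mul]
        ring

lemma NV.const (c : ℂ) : NV (fun _ => c) τ := NV.of_analytic analyticAt_const

/-- only the values in the half-plane matter -/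
lemma NV.congr (hf : NV f τ) (h : ∀ᶠ s in 𝓝 (ep τ), 1 < s.re → g s = f s) : NV g τ := by
  obtain ⟨r1, C1, h1⟩ := hf
  obtain ⟨d, hd, hd'⟩ := Metric.eventually_nhds_iff_ball.1 h
  set r := min r1 (d / 2)
  have hr : 0 < r := lt_min h1.1 (by linarith)
  have h1' := h1.mono hr (min_le_left _ _)
  have hrd : r ≤ d / 2 := min_le_right _ _
  have heq : ∀ z ∈ rect r, g (ep τ + z) = f (ep τ + z) := by
    intro z hz
    refine hd' _ ?_ ?_
    · rw [Metric.mem_ball, dist_eq_norm, add_sub_cancel_left]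
      have := rect_norm hz
      linarith
    · rw [Complex.add_re, ep_re]
      linarith [hz.1]
  refine ⟨r, C1, hr, h1'.2.1.congr heq, fun x hx hxr => ?_⟩
  refine le_trans (le_of_eq ?_) (h1'.2.2 x hx hxr)
  refine intervalIntegral.integral_congr fun t ht => ?_
  rw [uIcc_of_le (by linarith)] at ht
  rw [heq _ (pt_mem (r := r) (ρ := r / 2) hx hxr (abs_le.2 ht) (by linarith))]

end

/-- Euler products -/
lemma NV.exp_FF {b : PP → ℂ} {M : ℝ} (hb : ∀ x, ‖b x‖ ≤ M / (x.2 + 1 : ℕ)) (τ₁ : ℝ) :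
    NV (fun s => Complex.exp (FF b s)) τ₁ := by
  have hM := M_nonneg hb
  set w : ℂ := ep τ₁ with hw
  have hFd : DifferentiableOn ℂ (fun z => Complex.exp (FF b (w + z))) (rect 1) := by
    have ha : DifferentiableOn ℂ (fun z => w + z) (rect 1) :=
      (differentiable_id.const_add w).differentiableOn
    have m2 : MapsTo (fun z => w + z) (rect 1) {s : ℂ | 1 < s.re} := fun z hz => by
      change 1 < (w + z).re
      rw [Complex.add_re, hw, ep_re]
      linarith [hz.1]
    exact ((differentiableOn_FF hb).comp ha m2).cexp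
  set q : ℝ := 1 / (2 * (M + 1)) with hq
  have hq0 : 0 < q := by positivity
  have hq1 : q ≤ 1 := by
    rw [hq, div_le_one (by positivity)]
    linarith
  have hqM : |q| * M ≤ 1 / 2 := by
    rw [abs_of_pos hq0, hq, div_mul_eq_mul_div, one_mul, div_le_div_iff₀ (by positivity) (by norm_num)]
    linarith
  refine ⟨1, Real.log 2 + Real.log 1 + 1 / q + (1 / q) * 72, one_pos, hFd, fun x hx hxr => ?_⟩
  set L : ℝ → ℝ := fun t => ‖Complex.exp (FF b (w + pt (x, t)))‖ with hL
  have hcL : Continuous fun t => L t ^ q := by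
    have h1 := continuous_norm_exp hb (σ := 1 + x) (by linarith) q
    have h2 : (fun t => L t ^ q) = fun t : ℝ =>
        ‖Complex.exp (FF b (((1 + x : ℝ) : ℂ) + (τ₁ + t : ℝ) * I))‖ ^ q := by
      funext t
      simp only [hL]
      congr 4
      simp only [hw, pt, ep]
      push_cast
      ring
    rw [h2]
    exact h1.comp (continuous_const.add continuous_id)
  have hint : ∫ t in (-(1 / 2) : ℝ)..(1 / 2), L t ^ q ≤ 72 := by
    have h1 := hardy b hb (σ := 1 + x) (by linarith) (τ₁ - 1 / 2) (r := q)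
      (lt_of_le_of_lt hqM (by norm_num))
    have h2 : 36 / (1 - |q| * M) ≤ 72 := by
      rw [div_le_iff₀ (by linarith)]
      linarith
    have h3 := intervalIntegral.integral_comp_add_left
      (fun u : ℝ => ‖Complex.exp (FF b (((1 + x : ℝ) : ℂ) + u * I))‖ ^ q)
      (a := -(1 / 2)) (b := 1 / 2) τ₁
    have h4 : ∫ t in (-(1 / 2) : ℝ)..(1 / 2), L t ^ q =
        ∫ t in (-(1 / 2) : ℝ)..(1 / 2),
          ‖Complex.exp (FF b (((1 + x : ℝ) : ℂ) + (τ₁ + t : ℝ) * I))‖ ^ q := by
      refine intervalIntegral.integral_congr fun t _ => ?_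
      simp only [hL]
      congr 4
      simp only [hw, pt, ep]
      push_cast
      ring
    rw [h4, h3]
    have h5 : τ₁ + 1 / 2 = τ₁ - 1 / 2 + 1 := by ring
    have h6 : τ₁ + -(1 / 2) = τ₁ - 1 / 2 := by ring
    rw [h5, h6]
    exact h1.trans h2
  have hL0 : ∀ t, 0 ≤ L t := fun t => norm_nonneg _
  set D : ℝ → ℝ := fun t => Real.log 2 + Real.log 1 + (1 / q + (1 / q) * L t ^ q) with hD
  have hDc : Continuous D := by simp only [hD]; fun_prop
  have c3 := cont_int (f := fun s => Complex.exp (FF b s)) hFd hx hxr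
  have hle : -((1 : ℝ) / 2) ≤ 1 / 2 := by norm_num
  rw [← uIcc_of_le hle] at c3
  calc ∫ t in -((1 : ℝ) / 2)..(1 / 2), UU 1 (Complex.exp (FF b (ep τ₁ + pt (x, t)))) ≤
      ∫ t in -((1 : ℝ) / 2)..(1 / 2), D t := by
        refine intervalIntegral.integral_mono_on hle c3.intervalIntegrable
          (hDc.intervalIntegrable _ _) fun t ht => ?_
        refine UU_dom le_rfl hq0 hq1 (hL0 t) ?_
        rw [one_mul]
        exact (le_add_of_nonneg_left zero_le_one)
    _ = Real.log 2 + Real.log 1 + 1 / q + (1 / q) * ∫ t in (-(1 / 2) : ℝ)..(1 / 2), L t ^ q := by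
        simp only [hD]
        rw [intervalIntegral.integral_add (by simp) ((by fun_prop : Continuous fun t =>
            1 / q + 1 / q * L t ^ q).intervalIntegrable _ _),
          intervalIntegral.integral_add (by simp) ((by fun_prop : Continuous fun t =>
            1 / q * L t ^ q).intervalIntegrable _ _), intervalIntegral.integral_const_mul,
          intervalIntegral.integral_const, intervalIntegral.integral_const]
        simp only [smul_eq_mul]
        ring
    _ ≤ Real.log 2 + Real.log 1 + 1 / q + (1 / q) * 72 := by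
        have : (1 / q) * ∫ t in (-(1 / 2) : ℝ)..(1 / 2), L t ^ q ≤ (1 / q) * 72 :=
          mul_le_mul_of_nonneg_left hint (by positivity)
        linarith

end Pool.Agent.K6.H96.BV
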