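import Pool.Agent.K6.H96.BV.N1
import Pool.Agent.K6.H96.BV.Defs
import Pool.Agent.TH345.ET.W

/-!
# Boundary values of functions of locally bounded characteristic that are algebraic
-/

set_option autoImplicit false

namespace Pool.Agent.K6.H96.BV

open Complex Set Filter Topology MeasureTheory
open Pool.Agent.TH339.MP (rect isOpen_rect convex_rect UU pos_A pt continuous_pt pt_mem cont_UU
  UU_one_nonneg local_uniqueness)
open Pool.Agent.TH345.ET (ep tendsto_ep pv dc simple_root vals exists_poly)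

/-- radial limits -/
def Rad (f : ℂ → ℂ) (τ : ℝ) (v : ℂ) : Prop :=
  Tendsto (fun x : ℝ => f (1 + τ * Complex.I + x)) (𝓝[>] 0) (𝓝 v)

section
variable {f g : ℂ → ℂ} {τ : ℝ}

lemma Rad.unique {v w : ℂ} (h1 : Rad f τ v) (h2 : Rad f τ w) : v = w := tendsto_nhds_unique h1 h2

lemma Rad.of_analytic (hf : AnalyticAt ℂ f (ep τ)) : Rad f τ (f (ep τ)) :=
  hf.continuousAt.tendsto.comp (tendsto_ep τ)

lemma Rad.of_eventually (h : ∀ᶠ s in 𝓝 (ep τ), 1 < s.re → f s = g s) {v : ℂ} (hg : Rad g τ v) :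
    Rad f τ v := by
  refine hg.congr' ?_
  have h1 := (tendsto_ep τ).eventually h
  filter_upwards [h1, self_mem_nhdsWithin] with x hx hx0
  refine (hx ?_).symm
  have : (0 : ℝ) < x := hx0
  simpa using this

lemma Continues.rad (h : Continues f τ) : ∃ φ : ℂ → ℂ, AnalyticAt ℂ φ (ep τ) ∧
    (∀ᶠ s in 𝓝 (ep τ), 1 < s.re → f s = φ s) ∧ Rad f τ (φ (ep τ)) := by
  obtain ⟨φ, h1, h2⟩ := h
  exact ⟨φ, h1, h2, Rad.of_eventually h2 (Rad.of_analytic h1)⟩

/-- **Uniqueness** for functions of locally bounded characteristic -/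
theorem NV.unique {τ₁ : ℝ} (hf : NV f τ₁) {Z : Set ℝ} (hZ : ∀ t ∈ 𝓝[Z] τ₁, 0 < volume t)
    (hlim : ∀ τ ∈ Z, Rad f τ 0) : ∀ᶠ s in 𝓝 (ep τ₁), 1 < s.re → f s = 0 := by
  obtain ⟨r, C, hr, hd, hC⟩ := hf
  set ρ : ℝ := r / 2 with hρ
  have hρ0 : 0 < ρ := by positivity
  have hρr : ρ < r := by rw [hρ]; linarith
  set Z' : Set ℝ := {t | τ₁ + t ∈ Z} ∩ Icc (-ρ) ρ with hZ'
  have hZ'0 : volume Z' ≠ 0 := by
    have h1 : Z ∩ Icc (τ₁ - ρ) (τ₁ + ρ) ∈ 𝓝[Z] τ₁ := by
      refine inter_mem self_mem_nhdsWithin (mem_nhdsWithin_of_mem_nhds ?_)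
      exact Icc_mem_nhds (by linarith) (by linarith)
    have h2 := hZ _ h1
    have h3 : Z' = (fun t => τ₁ + t) ⁻¹' (Z ∩ Icc (τ₁ - ρ) (τ₁ + ρ)) := by
      ext t
      simp only [hZ', mem_inter_iff, mem_preimage, mem_Icc]
      constructor
      · rintro ⟨h4, h5, h6⟩
        exact ⟨h4, by linarith, by linarith⟩
      · rintro ⟨h4, h5, h6⟩
        exact ⟨h4, by linarith, by linarith⟩
    rw [h3, measure_preimage_add]
    exact h2.ne'
  have hlim' : ∀ t ∈ Z', Tendsto (fun x : ℝ => f (ep τ₁ + pt (x, t))) (𝓝[>] 0) (𝓝 0) := by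
    intro t ht
    refine (hlim (τ₁ + t) ht.1).congr fun x => ?_
    have e : (1 + ((τ₁ + t : ℝ) : ℂ) * I + x : ℂ) = ep τ₁ + pt (x, t) := by
      simp only [ep, pt]
      push_cast
      ring
    rw [e]
  have hzero := local_uniqueness hd hρ0 hρr (C := C) hC inter_subset_right hZ'0 hlim'
  have h1 : ∀ᶠ s in 𝓝 (ep τ₁), ‖s - ep τ₁‖ < r := by
    have := Metric.ball_mem_nhds (ep τ₁) hr
    filter_upwards [this] with s hs
    rwa [Metric.mem_ball, dist_eq_norm] at hs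
  filter_upwards [h1] with s hs hs1
  have h2 : s - ep τ₁ ∈ rect r := by
    have e1 := (Complex.abs_re_le_norm (s - ep τ₁)).trans_lt hs
    have e2 := (Complex.abs_im_le_norm (s - ep τ₁)).trans_lt hs
    refine ⟨?_, (abs_lt.1 e1).2, e2⟩
    rw [Complex.sub_re, ep_re]
    linarith
  have h3 := hzero _ h2
  simpa using h3

end

open Classical in
/-- the radial limit -/
noncomputable def rv (f : ℂ → ℂ) (τ : ℝ) : ℂ := if h : ∃ v, Rad f τ v then h.choose else 0

lemma Rad.rv_eq {f : ℂ → ℂ} {τ : ℝ} {v : ℂ} (h : Rad f τ v) : rv f τ = v := by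
  have h1 : ∃ v, Rad f τ v := ⟨v, h⟩
  unfold rv
  rw [dif_pos h1]
  exact h1.choose_spec.unique h

section
variable {f : ℂ → ℂ}

open Finset in
/-- the simple case -/
lemma null_simple (f : ℂ → ℂ) (d : ℕ) (c : ℕ → ℂ → ℂ) :
    volume {τ : ℝ | NV f τ ∧ Rad f τ (rv f τ) ∧ (∀ i ≤ d + 1, AnalyticAt ℂ (c i) (ep τ)) ∧
      pv (d + 1) c (ep τ, rv f τ) = 0 ∧ pv d (dc c) (ep τ, rv f τ) ≠ 0 ∧
      ¬ Continues f τ} = 0 := by
  classical
  set E := {τ : ℝ | NV f τ ∧ Rad f τ (rv f τ) ∧ (∀ i ≤ d + 1, AnalyticAt ℂ (c i) (ep τ)) ∧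
      pv (d + 1) c (ep τ, rv f τ) = 0 ∧ pv d (dc c) (ep τ, rv f τ) ≠ 0 ∧
      ¬ Continues f τ} with hE
  by_contra hvol
  have key : ∀ τ : E, ∃ (ψ : ℂ → ℂ) (O : Set (ℂ × ℂ)), IsOpen O ∧
      (ep τ, rv f τ) ∈ O ∧ 
      ∀ v ∈ O, AnalyticAt ℂ ψ v.1 ∧ (pv (d + 1) c v = 0 → ψ v.1 = v.2) := by
    rintro ⟨τ, h0, h1, h2, h3, h4, h5⟩
    obtain ⟨ψ, hψ, hev⟩ := simple_root h2 h3 h4
    obtain ⟨r1, hr1, hr1'⟩ := hψ.exists_ball_analyticOnNhd
    obtain ⟨O, hO, hOo, hOm⟩ := eventually_nhds_iff.1 hev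
    refine ⟨ψ, O ∩ (Metric.ball (ep τ) r1 ×ˢ Set.univ),
      hOo.inter (Metric.isOpen_ball.prod isOpen_univ), ⟨hOm, ?_⟩, ?_⟩
    · exact ⟨Metric.mem_ball_self hr1, Set.mem_univ _⟩
    · rintro v ⟨hv1, hv2⟩
      exact ⟨hr1' _ hv2.1, hO v hv1⟩
  choose ψ O hOo hOm hO using key
  obtain ⟨T, hT, hTU⟩ := TopologicalSpace.isOpen_iUnion_countable O hOo
  have hcov : E ⊆ ⋃ t ∈ T, {τ : ℝ | τ ∈ E ∧ (ep τ, rv f τ) ∈ O t} := by
    intro τ hτ
    have h1 : (ep τ, rv f τ) ∈ ⋃ t, O t := Set.mem_iUnion.2 ⟨⟨τ, hτ⟩, hOm ⟨τ, hτ⟩⟩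
    rw [← hTU] at h1
    simp only [Set.mem_iUnion] at h1 ⊢
    obtain ⟨t, ht, ht2⟩ := h1
    exact ⟨t, ht, hτ, ht2⟩
  have hex : ∃ t ∈ T, volume {τ : ℝ | τ ∈ E ∧ (ep τ, rv f τ) ∈ O t} ≠ 0 := by
    by_contra hcon
    push Not at hcon
    exact hvol (measure_mono_null hcov ((measure_biUnion_null_iff hT).2 hcon))
  obtain ⟨t, ht, hZ⟩ := hex
  set Z := {τ : ℝ | τ ∈ E ∧ (ep τ, rv f τ) ∈ O t} with hZdef
  obtain ⟨τ₁, hτ₁, hdens⟩ := exists_mem_forall_mem_nhdsWithin_pos_measure hZ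
  have hψa : AnalyticAt ℂ (ψ t) (ep τ₁) := (hO t _ hτ₁.2).1
  have hNV : NV (fun s => f s + (-1) * ψ t s) τ₁ :=
    hτ₁.1.1.add ((NV.const (-1)).mul (NV.of_analytic hψa))
  have h1 := hNV.unique hdens (fun τ hτ => by
    have h4 := Rad.of_analytic (hO t _ hτ.2).1
    have h5 : Tendsto _ _ _ := Tendsto.add hτ.1.2.1 (Tendsto.const_mul (-1) h4)
    have h6 : ψ t (ep τ) = rv f τ := (hO t _ hτ.2).2 hτ.1.2.2.2.1
    change Tendsto _ _ (𝓝 (rv f τ + (-1) * ψ t (ep τ))) at h5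
    rw [h6, neg_one_mul, add_neg_cancel] at h5
    exact h5)
  apply hτ₁.1.2.2.2.2.2
  refine ⟨ψ t, hψa, ?_⟩
  filter_upwards [h1] with s hs hs1
  have := hs hs1
  linear_combination this

/-- **Algebraic boundary values.** -/
theorem ae_root (f : ℂ → ℂ) (d : ℕ) :
    ∀ c : ℕ → ℂ → ℂ, ∀ᵐ τ : ℝ, NV f τ → Rad f τ (rv f τ) →
      (∀ i ≤ d, AnalyticAt ℂ (c i) (ep τ)) →
      (∃ i ≤ d, c i (ep τ) ≠ 0) → pv d c (ep τ, rv f τ) = 0 → Continues f τ := by
  induction d with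
  | zero =>
    intro c
    refine Eventually.of_forall fun τ _ _ _ h2 h3 => ?_
    obtain ⟨i, hi, hne⟩ := h2
    obtain rfl : i = 0 := by omega
    unfold pv at h3
    simp only [zero_add, Finset.range_one, Finset.sum_singleton, pow_zero, mul_one] at h3
    exact absurd h3 hne
  | succ d ih =>
    intro c
    filter_upwards [ih (dc c),
      measure_eq_zero_iff_ae_notMem.1 (null_simple f d c)] with τ h1 h3 hn hr hc hne h0
    by_contra hcont
    by_cases h4 : pv d (dc c) (ep τ, rv f τ) = 0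
    · apply hcont
      refine h1 hn hr (fun i hi => ?_) ?_ h4
      · exact analyticAt_const.mul (hc (i + 1) (by omega))
      · by_contra hall
        push Not at hall
        have hz : ∀ i, i + 1 ≤ d + 1 → c (i + 1) (ep τ) = 0 := by
          intro i hi
          have h5 := hall i (by omega)
          unfold dc at h5
          rcases mul_eq_zero.1 h5 with h6 | h6
          · exfalso
            have : ((i + 1 : ℕ) : ℂ) = 0 := by
              push_cast
              exact h6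
            rw [Nat.cast_eq_zero] at this
            omega
          · exact h6
        have hc0 : c 0 (ep τ) = 0 := by
          unfold pv at h0
          rw [Finset.sum_range_succ'] at h0
          simp only [pow_zero, mul_one] at h0
          rw [Finset.sum_eq_zero, zero_add] at h0
          · exact h0
          · intro i hi
            rw [Finset.mem_range] at hi
            rw [hz i (by omega), zero_mul]
        obtain ⟨i, hi, hi2⟩ := hne
        rcases Nat.eq_zero_or_pos i with rfl | hpos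
        · exact hi2 hc0
        · obtain ⟨k, rfl⟩ := Nat.exists_eq_succ_of_ne_zero hpos.ne'
          exact hi2 (hz k hi)
    · exact h3 ⟨hn, hr, hc, h0, h4, hcont⟩

lemma countable_mv {A : Set (ℂ → ℂ)} (hA : A.Countable) : Countable (MvPolynomial A ℚ) := by
  have : Countable A := hA.to_subtype
  rw [← Cardinal.mk_le_aleph0_iff]
  refine (MvPolynomial.cardinalMk_le_max_lift).trans ?_
  refine max_le (max_le ?_ ?_) le_rfl
  · rw [Cardinal.lift_le_aleph0]
    exact Cardinal.mk_le_aleph0_iff.2 inferInstance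
  · rw [Cardinal.lift_le_aleph0]
    exact Cardinal.mk_le_aleph0_iff.2 inferInstance

lemma countable_pmv {A : Set (ℂ → ℂ)} (hA : A.Countable) :
    Countable (Polynomial (MvPolynomial A ℚ)) := by
  have := countable_mv hA
  rw [← Cardinal.mk_le_aleph0_iff]
  refine Polynomial.cardinalMk_le_max.trans ?_
  exact max_le (Cardinal.mk_le_aleph0_iff.2 inferInstance) le_rfl

/-- **Continuation or transcendence.** -/
theorem ae_transcendental {R A : Set (ℂ → ℂ)} (hR : R.Countable) (hA : A.Countable) :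
    ∀ᵐ τ : ℝ, ∀ f ∈ R, NV f τ → ∀ v, Rad f τ v →
      IsAlgebraic (IntermediateField.adjoin ℚ (vals A (ep τ))) v → Continues f τ := by
  have hc2 := countable_pmv hA
  have hall : ∀ f ∈ R, ∀ᵐ τ : ℝ, ∀ (d : ℕ) (Q : Polynomial (MvPolynomial A ℚ)),
      NV f τ → Rad f τ (rv f τ) →
      (∀ i ≤ d, AnalyticAt ℂ (fun s : ℂ => MvPolynomial.aeval (fun g : A => g.1 s) (Q.coeff i))
        (ep τ)) →
      (∃ i ≤ d, MvPolynomial.aeval (fun g : A => g.1 (ep τ)) (Q.coeff i) ≠ 0) →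
      ∑ i ∈ Finset.range (d + 1), MvPolynomial.aeval (fun g : A => g.1 (ep τ)) (Q.coeff i) *
        (rv f τ) ^ i = 0 → Continues f τ := by
    intro f _
    rw [ae_all_iff]
    intro d
    rw [ae_all_iff]
    intro Q
    exact ae_root f d (fun i s => MvPolynomial.aeval (fun g : A => g.1 s) (Q.coeff i))
  have hall2 := (ae_ball_iff hR).2 hall
  filter_upwards [hall2] with τ hτ f hf hn v hv halg
  obtain ⟨d, Q, h1, h2, h3⟩ := exists_poly halg
  have hv' := hv.rv_eq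
  exact hτ f hf d Q hn (by rw [hv']; exact hv) h1 h2 (by rw [hv']; exact h3)

end

end Pool.Agent.K6.H96.BV
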