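import Pool.Agent.K6.H96.BV.N2
import Pool.Agent.K6.H96.BV.Defs

/-!
# Algebraic boundary values over the field of the values of the functions that continue
-/

set_option autoImplicit false

namespace Pool.Agent.K6.H96.BV

open Complex Set Filter Topology MeasureTheory
open Pool.Agent.TH345.ET (ep tendsto_ep vals)

lemma edge_eq (τ : ℝ) : edge τ = ep τ := rfl

lemma countable_adjoin {S : Set (ℂ → ℂ)} (hS : S.Countable) :
    (Algebra.adjoin ℚ S : Set (ℂ → ℂ)).Countable := by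
  have : Countable S := hS.to_subtype
  rw [← Set.countable_coe_iff, ← Cardinal.mk_le_aleph0_iff]
  refine (Algebra.cardinalMk_adjoin_le ℚ S).trans ?_
  exact max_le (max_le (Cardinal.mk_le_aleph0_iff.2 inferInstance)
    (Cardinal.mk_le_aleph0_iff.2 inferInstance)) le_rfl

/-- `φ` continues `f` to the ball with the centre `1 + iq` and the radius `r` -/
def IsExt (f : ℂ → ℂ) (q r : ℚ) (φ : ℂ → ℂ) : Prop :=
  ∀ s ∈ Metric.ball (ep q) (r : ℝ), AnalyticAt ℂ φ s ∧ (1 < s.re → f s = φ s)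

open Classical in
/-- a chosen continuation -/
noncomputable def ext (f : ℂ → ℂ) (q r : ℚ) : ℂ → ℂ :=
  if h : ∃ φ, IsExt f q r φ then h.choose else 0

lemma ext_spec {f : ℂ → ℂ} {q r : ℚ} (h : ∃ φ, IsExt f q r φ) : IsExt f q r (ext f q r) := by
  unfold ext
  rw [dif_pos h]
  exact h.choose_spec

lemma norm_ep_sub (a b : ℝ) : ‖ep a - ep b‖ = |a - b| := by
  have h : ep a - ep b = ((a - b : ℝ) : ℂ) * I := by
    unfold ep
    push_cast
    ring
  rw [h, norm_mul, Complex.norm_I, mul_one, Complex.norm_real, Real.norm_eq_abs]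

/-- the values of the continuing functions are values of functions from a countable set -/
lemma mem_vals {R : Set (ℂ → ℂ)} {f : ℂ → ℂ} (hf : f ∈ R) {τ : ℝ} (hc : Continues f τ) {v : ℂ}
    (hv : Rad f τ v) : v ∈ vals ((fun x : (ℂ → ℂ) × ℚ × ℚ => ext x.1 x.2.1 x.2.2) ''
      (R ×ˢ (Set.univ : Set (ℚ × ℚ)))) (ep τ) := by
  obtain ⟨φ, hφ, hev⟩ := hc
  obtain ⟨r1, hr1, hr1'⟩ := hφ.exists_ball_analyticOnNhd
  obtain ⟨r2, hr2, hr2'⟩ := Metric.eventually_nhds_iff_ball.1 hev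
  set d := min r1 r2 with hd
  have hd0 : 0 < d := lt_min hr1 hr2
  obtain ⟨r, hr0, hrd⟩ := exists_rat_btwn (show (0 : ℝ) < d / 2 by linarith)
  obtain ⟨q, hq1, hq2⟩ := exists_rat_btwn (show τ - r < τ by linarith)
  have hsub : ∀ s ∈ Metric.ball (ep q) (r : ℝ), s ∈ Metric.ball (ep τ) d := by
    intro s hs
    rw [Metric.mem_ball, dist_eq_norm] at hs ⊢
    have h1 : ‖s - ep τ‖ ≤ ‖s - ep q‖ + ‖ep q - ep τ‖ := norm_sub_le_norm_sub_add_norm_sub _ _ _
    have h2 : ‖ep q - ep τ‖ < r := by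
      rw [norm_ep_sub, abs_lt]
      exact ⟨by linarith, by linarith⟩
    linarith
  have hE : ∃ φ, IsExt f q r φ := by
    refine ⟨φ, fun s hs => ?_⟩
    have h1 := hsub s hs
    exact ⟨hr1' s (Metric.ball_subset_ball (min_le_left _ _) h1),
      hr2' s (Metric.ball_subset_ball (min_le_right _ _) h1)⟩
  have hmem : ep τ ∈ Metric.ball (ep q) (r : ℝ) := by
    rw [Metric.mem_ball, dist_eq_norm, norm_ep_sub, abs_lt]
    exact ⟨by linarith, by linarith⟩
  have hs := ext_spec hE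
  refine ⟨ext f q r, ⟨(f, q, r), ⟨hf, Set.mem_univ _⟩, rfl⟩, (hs _ hmem).1, ?_⟩
  have h3 : Rad f τ (ext f q r (ep τ)) := by
    refine Rad.of_eventually (g := ext f q r) ?_ (Rad.of_analytic (hs _ hmem).1)
    filter_upwards [Metric.isOpen_ball.mem_nhds hmem] with s hs'
    exact (hs s hs').2
  exact h3.unique hv

lemma alg_mono {K L : IntermediateField ℚ ℂ} (hle : K ≤ L) {v : ℂ} (h : IsAlgebraic K v) :
    IsAlgebraic L v := by
  obtain ⟨P, hP, hPx⟩ := h
  refine ⟨P.map (IntermediateField.inclusion hle).toRingHom, ?_, ?_⟩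
  · rw [Ne, Polynomial.map_eq_zero_iff (IntermediateField.inclusion hle).toRingHom.injective]
    exact hP
  · rw [Polynomial.aeval_def, Polynomial.eval₂_map]
    rw [Polynomial.aeval_def] at hPx
    exact hPx

/-- **Continuation or transcendence** over the field of the values of the functions that continue -/
theorem ae_transcendental' {R : Set (ℂ → ℂ)} (hR : R.Countable) :
    ∀ᵐ τ : ℝ, ∀ f ∈ R, NV f τ → ∀ v, Rad f τ v →
      IsAlgebraic (IntermediateField.adjoin ℚ {w : ℂ | ∃ g ∈ R, Continues g τ ∧ Rad g τ w}) v →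
      Continues f τ := by
  have hΦ : ((fun x : (ℂ → ℂ) × ℚ × ℚ => ext x.1 x.2.1 x.2.2) ''
      (R ×ˢ (Set.univ : Set (ℚ × ℚ)))).Countable := (hR.prod (Set.to_countable _)).image _
  filter_upwards [ae_transcendental hR hΦ] with τ hτ f hf hn v hv halg
  refine hτ f hf hn v hv (alg_mono (IntermediateField.adjoin.mono _ _ _ ?_) halg)
  rintro w ⟨g, hg, hgc, hgw⟩
  exact mem_vals hg hgc hgw

/-- **Uniqueness**, almost everywhere -/
theorem ae_zero {R : Set (ℂ → ℂ)} (hR : R.Countable) :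
    ∀ᵐ τ : ℝ, ∀ f ∈ R, NV f τ → Rad f τ 0 → ∀ᶠ s in 𝓝 (ep τ), 1 < s.re → f s = 0 := by
  refine (ae_ball_iff hR).2 fun f _ => ?_
  by_contra hcon
  have hZ : volume {τ : ℝ | NV f τ ∧ Rad f τ 0 ∧ ¬ ∀ᶠ s in 𝓝 (ep τ), 1 < s.re → f s = 0} ≠ 0 := by
    intro h0
    apply hcon
    filter_upwards [measure_eq_zero_iff_ae_notMem.1 h0] with τ hτ h1 h2
    by_contra h3
    exact hτ ⟨h1, h2, h3⟩
  obtain ⟨τ₁, hτ₁, hdens⟩ := exists_mem_forall_mem_nhdsWithin_pos_measure hZ
  exact hτ₁.2.2 (hτ₁.1.unique hdens fun τ hτ => hτ.2.1)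

lemma HasBoundaryValue.rad {f : ℂ → ℂ} {τ : ℝ} {v : ℂ} (h : HasBoundaryValue f τ v) : Rad f τ v := by
  refine (h 1).comp ?_
  rw [tendsto_nhdsWithin_iff]
  refine ⟨tendsto_ep τ, ?_⟩
  filter_upwards [self_mem_nhdsWithin] with x hx
  have hx0 : (0 : ℝ) < x := hx
  have h1 : (1 + (τ : ℂ) * I + x : ℂ) - edge τ = x := by
    unfold edge
    ring
  refine ⟨?_, ?_⟩
  · simpa using hx0
  · rw [h1, Complex.norm_real, Real.norm_of_nonneg hx0.le]
    simp

/-- the class of functions with boundary values and of locally bounded characteristic -/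
def Nice (f : ℂ → ℂ) (τ : ℝ) : Prop := NV f τ ∧ ∃ v, HasBoundaryValue f τ v

lemma Nice.of_analytic {f : ℂ → ℂ} {τ : ℝ} (hf : AnalyticAt ℂ f (ep τ)) : Nice f τ :=
  ⟨NV.of_analytic hf, f (ep τ), fun _ => hf.continuousAt.tendsto.mono_left nhdsWithin_le_nhds⟩

lemma nice_adjoin {S : Set (ℂ → ℂ)} {τ : ℝ} (hS : ∀ f ∈ S, Nice f τ) {f : ℂ → ℂ}
    (hf : f ∈ Algebra.adjoin ℚ S) : Nice f τ := by
  induction hf using Algebra.adjoin_induction with
  | mem f hf => exact hS f hf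
  | algebraMap c => exact Nice.of_analytic (f := fun _ => algebraMap ℚ ℂ c) analyticAt_const
  | add f g _ _ hf hg =>
    obtain ⟨h1, v, h2⟩ := hf
    obtain ⟨h3, w, h4⟩ := hg
    exact ⟨h1.add h3, v + w, fun C => (h2 C).add (h4 C)⟩
  | mul f g _ _ hf hg =>
    obtain ⟨h1, v, h2⟩ := hf
    obtain ⟨h3, w, h4⟩ := hg
    exact ⟨h1.mul h3, v * w, fun C => (h2 C).mul (h4 C)⟩

end Pool.Agent.K6.H96.BV
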