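import Pool.Agent.K6.H96.BV.N3

/-!
# The `L`-functions of motives as products of a finite Euler product and an exponential
-/

set_option autoImplicit false

namespace Pool.Agent.K6.H96.BV

open Complex Set Filter Topology MeasureTheory
open Pool.Agent.TH339.MP (PP FF bl ap bα norm_bα fα hasProd_α ae_notMem bl_angle boundary)
open Pool.Agent.TH345.ET (ep tendsto_ep vals)
open Pool.Agent.W350.Edge (divSet)

namespace Motive

variable (M : Motive)

/-- the bad primes -/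
noncomputable def badP : Finset Nat.Primes :=
  Set.Finite.toFinset (s := {p | ¬ ((∀ j, ‖M.frob p j‖ ≤ ((p : ℕ) : ℝ) ^ ((M.weight : ℝ) / 2)) ∧
      M.euler p = ∏ j, (1 - Polynomial.C (M.frob p j) * Polynomial.X))}) M.good

lemma good_of {p : Nat.Primes} (hp : p ∉ M.badP) :
    (∀ j, ‖M.frob p j‖ ≤ ((p : ℕ) : ℝ) ^ ((M.weight : ℝ) / 2)) ∧
      M.euler p = ∏ j, (1 - Polynomial.C (M.frob p j) * Polynomial.X) := by
  by_contra h
  exact hp ((Set.Finite.mem_toFinset _).2 h)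

/-- the bad primes as numbers -/
noncomputable def bad : Finset ℕ := by
  classical exact Finset.image (fun p : Nat.Primes => (p : ℕ)) M.badP

lemma mem_bad {p : Nat.Primes} : (p : ℕ) ∈ M.bad ↔ p ∈ M.badP := by
  classical
  unfold bad
  rw [Finset.mem_image]
  constructor
  · rintro ⟨q, hq, h⟩
    have : q = p := Subtype.ext h
    rwa [← this]
  · intro h
    exact ⟨p, h, rfl⟩

/-- the normalised eigenvalues -/
noncomputable def al (p : ℕ) (j : Fin M.rank) : ℂ :=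
  if h : p.Prime then M.frob ⟨p, h⟩ j * (p : ℂ) ^ (-((M.weight : ℂ) / 2)) else 0

lemma al_prime (p : Nat.Primes) (j : Fin M.rank) :
    M.al p j = M.frob p j * ((p : ℕ) : ℂ) ^ (-((M.weight : ℂ) / 2)) := by
  unfold al
  rw [dif_pos p.2]
  rfl

lemma norm_cpow_w (p : Nat.Primes) : ‖((p : ℕ) : ℂ) ^ (-((M.weight : ℂ) / 2))‖ =
    (((p : ℕ) : ℝ) ^ ((M.weight : ℝ) / 2))⁻¹ := by
  rw [Complex.norm_natCast_cpow_of_pos p.2.pos, ← Real.rpow_neg (by positivity)]
  congr 1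
  simp

lemma norm_al (p : ℕ) (hp : p.Prime) (hb : p ∉ M.bad) (j : Fin M.rank) : ‖M.al p j‖ ≤ 1 := by
  have h1 : (⟨p, hp⟩ : Nat.Primes) ∉ M.badP := fun h => hb (M.mem_bad.2 h)
  have h2 := (M.good_of h1).1 j
  have h3 := M.al_prime ⟨p, hp⟩ j
  have h4 : ((⟨p, hp⟩ : Nat.Primes) : ℕ) = p := rfl
  rw [h4] at h3 h2
  rw [h3, norm_mul]
  have h5 := M.norm_cpow_w ⟨p, hp⟩
  rw [h4] at h5
  rw [h5]
  have hpos : 0 < (p : ℝ) ^ ((M.weight : ℝ) / 2) :=
    Real.rpow_pos_of_pos (by exact_mod_cast hp.pos) _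
  rw [← div_eq_mul_inv, div_le_one hpos]
  exact h2

/-- the exponents -/
noncomputable def co : PP → ℂ := bα M.al M.bad

lemma norm_co (x : PP) : ‖M.co x‖ ≤ (M.rank : ℝ) / (x.2 + 1 : ℕ) :=
  norm_bα (fun p hp hb j => M.norm_al p hp hb j) x

/-- the polynomial of the Euler factor at `p`, in the normalised variable -/
noncomputable def lf (p : Nat.Primes) (s : ℂ) : ℂ :=
  (M.euler p).eval (((p : ℕ) : ℂ) ^ (-(s + (M.weight : ℂ) / 2)))

lemma cpow_split (p : Nat.Primes) (s : ℂ) : ((p : ℕ) : ℂ) ^ (-(s + (M.weight : ℂ) / 2)) =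
    ((p : ℕ) : ℂ) ^ (-s) * ((p : ℕ) : ℂ) ^ (-((M.weight : ℂ) / 2)) := by
  rw [neg_add, Complex.cpow_add _ _ (Nat.cast_ne_zero.2 p.2.ne_zero)]

lemma lf_good {p : Nat.Primes} (hp : p ∉ M.badP) (s : ℂ) :
    M.lf p s = ∏ j, (1 - M.al p j * ((p : ℕ) : ℂ) ^ (-s)) := by
  unfold lf
  rw [(M.good_of hp).2, Polynomial.eval_prod]
  refine Finset.prod_congr rfl fun j _ => ?_
  rw [M.al_prime, M.cpow_split]
  simp only [Polynomial.eval_sub, Polynomial.eval_one, Polynomial.eval_mul, Polynomial.eval_C,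
    Polynomial.eval_X]
  ring

/-- the finite Euler product over the bad primes -/
noncomputable def hh (s : ℂ) : ℂ := ∏ p ∈ M.badP, (M.lf p s)⁻¹

lemma hasProd_lf {s : ℂ} (hs : 1 < s.re) :
    HasProd (fun p : Nat.Primes => (M.lf p s)⁻¹) (M.hh s * Complex.exp (FF M.co s)) := by
  classical
  have h1 : HasProd (fun p : Nat.Primes => if p ∈ M.badP then (M.lf p s)⁻¹ else 1)
      (∏ p ∈ M.badP, (if p ∈ M.badP then (M.lf p s)⁻¹ else 1)) :=
    hasProd_prod_of_ne_finset_one fun p hp => if_neg hp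
  have h2 := hasProd_α (α := M.al) (S := M.bad) (fun p hp hb j => M.norm_al p hp hb j) hs
  have h3 := h1.mul h2
  have h4 : (∏ p ∈ M.badP, (if p ∈ M.badP then (M.lf p s)⁻¹ else 1)) = M.hh s :=
    Finset.prod_congr rfl fun p hp => if_pos hp
  rw [h4] at h3
  change HasProd _ (M.hh s * Complex.exp (FF (bα M.al M.bad) s))
  convert h3 using 1
  funext p
  unfold fα
  by_cases hp : p ∈ M.badP
  · rw [if_pos hp, if_pos (M.mem_bad.2 hp), mul_one]
  · rw [if_neg hp, if_neg (fun h => hp (M.mem_bad.1 h)), one_mul, M.lf_good hp,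
      Finset.prod_inv_distrib]

lemma nL_eq {s : ℂ} (hs : 1 < s.re) : M.nL s = M.hh s * Complex.exp (FF M.co s) :=
  (M.hasProd_lf hs).tprod_eq

lemma lf_analytic (p : Nat.Primes) (s : ℂ) : AnalyticAt ℂ (M.lf p) s := by
  have hq0 : ((p : ℕ) : ℂ) ≠ 0 := Nat.cast_ne_zero.2 p.2.ne_zero
  have h1 : M.lf p = fun s => (M.euler p).eval (Complex.exp (Complex.log ((p : ℕ) : ℂ) *
      (-(s + (M.weight : ℂ) / 2)))) := by
    funext s
    unfold lf
    rw [Complex.cpow_def_of_ne_zero hq0]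
  rw [h1]
  have h2 : AnalyticAt ℂ (fun s : ℂ => Complex.exp (Complex.log ((p : ℕ) : ℂ) *
      (-(s + (M.weight : ℂ) / 2)))) s := by
    fun_prop
  exact h2.aeval_polynomial (M.euler p)

/-- the points of the edge at which a bad Euler factor has a pole -/
def poles : Set ℝ := {τ : ℝ | ∃ p ∈ M.badP, M.lf p (ep τ) = 0}

lemma countable_root (p : Nat.Primes) (x : ℂ) :
    {τ : ℝ | ((p : ℕ) : ℂ) ^ (-(ep τ + (M.weight : ℂ) / 2)) = x}.Countable := by
  by_cases hne : {τ : ℝ | ((p : ℕ) : ℂ) ^ (-(ep τ + (M.weight : ℂ) / 2)) = x}.Nonempty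
  · obtain ⟨τ₀, h0⟩ := hne
    refine (Set.countable_range fun n : ℤ => τ₀ - n * (2 * Real.pi) / Real.log (p : ℕ)).mono ?_
    intro τ hτ
    have h1 : ((p : ℕ) : ℂ) ^ (-(ep τ + (M.weight : ℂ) / 2)) =
        ((p : ℕ) : ℂ) ^ (-(ep τ₀ + (M.weight : ℂ) / 2)) := by
      rw [h0]; exact hτ
    have hq0 : ((p : ℕ) : ℂ) ≠ 0 := Nat.cast_ne_zero.2 p.2.ne_zero
    rw [Complex.cpow_def_of_ne_zero hq0, Complex.cpow_def_of_ne_zero hq0,
      Complex.exp_eq_exp_iff_exists_int] at h1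
    obtain ⟨n, hn⟩ := h1
    refine ⟨n, ?_⟩
    have hl0 : Real.log ((p : ℕ) : ℝ) ≠ 0 := by
      have := Real.log_pos (show (1 : ℝ) < (p : ℕ) by exact_mod_cast p.2.one_lt)
      exact this.ne'
    unfold ep at hn
    have h2 : ((Real.log (p : ℕ) * (τ₀ - τ) : ℝ) : ℂ) * I = ((n * (2 * Real.pi) : ℝ) : ℂ) * I := by
      push_cast
      linear_combination hn
    have h3 := mul_right_cancel₀ Complex.I_ne_zero h2
    have h4 : Real.log (p : ℕ) * (τ₀ - τ) = n * (2 * Real.pi) := Complex.ofReal_injective h3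
    simp only
    rw [← h4]
    field_simp
    ring
  · rw [Set.not_nonempty_iff_eq_empty] at hne
    rw [hne]
    exact Set.countable_empty

lemma countable_poles : M.poles.Countable := by
  have h : M.poles ⊆ ⋃ p ∈ (M.badP : Set Nat.Primes), ⋃ x ∈ ((M.euler p).roots.toFinset : Set ℂ),
      {τ : ℝ | ((p : ℕ) : ℂ) ^ (-(ep τ + (M.weight : ℂ) / 2)) = x} := by
    rintro τ ⟨p, hp, h0⟩
    simp only [Set.mem_iUnion]
    refine ⟨p, hp, _, ?_, rfl⟩
    rw [Finset.mem_coe, Multiset.mem_toFinset, Polynomial.mem_roots (M.euler_ne p)]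
    exact h0
  refine Set.Countable.mono h ?_
  refine Set.Countable.biUnion (Finset.countable_toSet _) fun p _ => ?_
  exact Set.Countable.biUnion (Finset.countable_toSet _) fun x _ => M.countable_root p x

lemma hh_analytic {τ : ℝ} (hτ : τ ∉ M.poles) : AnalyticAt ℂ M.hh (ep τ) := by
  unfold hh
  refine Finset.analyticAt_fun_prod _ fun p hp => ?_
  refine (M.lf_analytic p _).inv fun h => hτ ⟨p, hp, h⟩

lemma hh_ne {τ : ℝ} (hτ : τ ∉ M.poles) : M.hh (ep τ) ≠ 0 := by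
  unfold hh
  refine Finset.prod_ne_zero_iff.2 fun p hp => ?_
  exact inv_ne_zero fun h => hτ ⟨p, hp, h⟩

/-- the exceptional set -/
def exc : Set ℝ := divSet (ap M.co) ∪ M.poles

lemma dimH_exc : dimH M.exc = 0 := by
  unfold exc
  rw [dimH_union, (boundary M.norm_co).2.1, M.countable_poles.dimH_zero, max_self]

lemma volume_exc : volume M.exc = 0 := by
  unfold exc
  exact measure_union_null (measure_eq_zero_iff_ae_notMem.2 (ae_notMem M.norm_co))
    (M.countable_poles.measure_zero _)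

end Motive

lemma tendsto_angle (τ C : ℝ) : Tendsto (fun s : ℂ => s - edge τ) (𝓝[angle τ C] (edge τ))
    (𝓝[{z : ℂ | 0 < z.re ∧ ‖z‖ ≤ C * z.re}] 0) := by
  rw [tendsto_nhdsWithin_iff]
  constructor
  · have h7 : Tendsto (fun s : ℂ => s - edge τ) (𝓝 (edge τ)) (𝓝 (edge τ - edge τ)) :=
      (continuous_id.sub continuous_const).tendsto _
    rw [sub_self] at h7
    exact h7.mono_left nhdsWithin_le_nhds
  · filter_upwards [self_mem_nhdsWithin] with s hs
    have hre : (s - edge τ).re = s.re - 1 := by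
      unfold edge
      simp
    refine ⟨?_, ?_⟩
    · rw [hre]
      linarith [hs.1]
    · rw [hre]
      exact hs.2

lemma hasBV_exp {b : PP → ℂ} {C : ℝ} (hb : ∀ x, ‖b x‖ ≤ C / (x.2 + 1 : ℕ)) {τ : ℝ}
    (hτ : τ ∉ divSet (ap b)) : HasBoundaryValue (fun s => Complex.exp (FF b s)) τ
      (Complex.exp (bl b τ)) := by
  intro C'
  have h5 := (Complex.continuous_exp.tendsto _).comp
    ((bl_angle hb hτ C').comp (tendsto_angle τ C'))
  refine h5.congr fun s => ?_
  simp only [Function.comp_apply]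
  congr 2
  unfold edge
  ring

lemma HasBoundaryValue.congr {f g : ℂ → ℂ} {τ : ℝ} {v : ℂ} (h : HasBoundaryValue f τ v)
    (hfg : ∀ s, 1 < s.re → g s = f s) : HasBoundaryValue g τ v := by
  intro C
  refine (h C).congr' ?_
  filter_upwards [self_mem_nhdsWithin] with s hs
  exact (hfg s hs.1).symm

lemma HasBoundaryValue.of_analytic {f : ℂ → ℂ} {τ : ℝ} (hf : AnalyticAt ℂ f (ep τ)) :
    HasBoundaryValue f τ (f (ep τ)) :=
  fun _ => hf.continuousAt.tendsto.mono_left nhdsWithin_le_nhds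

namespace Motive

variable (M : Motive)

/-- the boundary value of the normalised `L`-function -/
noncomputable def bval (τ : ℝ) : ℂ := M.hh (ep τ) * Complex.exp (bl M.co τ)

lemma bval_ne {τ : ℝ} (hτ : τ ∉ M.exc) : M.bval τ ≠ 0 :=
  mul_ne_zero (M.hh_ne fun h => hτ (Or.inr h)) (Complex.exp_ne_zero _)

lemma hasBV {τ : ℝ} (hτ : τ ∉ M.exc) : HasBoundaryValue M.nL τ (M.bval τ) := by
  have h1 := HasBoundaryValue.of_analytic (M.hh_analytic fun h => hτ (Or.inr h))
  have h2 := hasBV_exp M.norm_co (fun h => hτ (Or.inl h))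
  have h3 : HasBoundaryValue (fun s => M.hh s * Complex.exp (FF M.co s)) τ (M.bval τ) :=
    fun C => (h1 C).mul (h2 C)
  exact h3.congr fun s hs => M.nL_eq hs

lemma nice {τ : ℝ} (hτ : τ ∉ M.exc) : Nice M.nL τ := by
  refine ⟨?_, _, M.hasBV hτ⟩
  have h1 := (NV.of_analytic (M.hh_analytic fun h => hτ (Or.inr h))).mul (NV.exp_FF M.norm_co τ)
  exact h1.congr (Eventually.of_forall fun s hs => M.nL_eq hs)

lemma FF_neg (b : PP → ℂ) (s : ℂ) : FF (fun x => -b x) s = -FF b s := by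
  unfold FF
  rw [← tsum_neg]
  refine tsum_congr fun x => ?_
  unfold Pool.Agent.TH339.MP.tm
  ring

lemma nL_inv_eq {s : ℂ} (hs : 1 < s.re) : (M.nL s)⁻¹ =
    (M.hh s)⁻¹ * Complex.exp (FF (fun x => -M.co x) s) := by
  rw [M.nL_eq hs, mul_inv, ← Complex.exp_neg, FF_neg]

lemma nice_inv {τ : ℝ} (hτ : τ ∉ M.exc) : Nice (fun s => (M.nL s)⁻¹) τ := by
  refine ⟨?_, (M.bval τ)⁻¹, fun C => (M.hasBV hτ C).inv₀ (M.bval_ne hτ)⟩
  have h0 := M.hh_analytic (τ := τ) fun h => hτ (Or.inr h)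
  have h1 := (NV.of_analytic (h0.inv (M.hh_ne fun h => hτ (Or.inr h)))).mul
    (NV.exp_FF (b := fun x => -M.co x) (M := (M.rank : ℝ)) (fun x => by
      rw [norm_neg]; exact M.norm_co x) τ)
  refine h1.congr (Eventually.of_forall fun s hs => ?_)
  rw [M.nL_inv_eq hs]
  rfl

end Motive

end Pool.Agent.K6.H96.BV
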